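import Mathlib

set_option autoImplicit false

/-! Two thin sets of the plane whose distances are almost separated functions. -/

namespace Pool.Agent.W5h28.PD

open Finset

/-- grid points -/
noncomputable def gp (s : ℤ) (i : ℕ × ℕ) : ℂ := ⟨(s : ℝ) * i.1, i.2⟩

lemma gp_inj {s : ℤ} (hs : s = 1 ∨ s = -1) : Function.Injective (gp s) := by
  intro i j h
  have h1 := congrArg Complex.re h
  have h2 := congrArg Complex.im h
  simp only [gp] at h1 h2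
  refine Prod.ext ?_ (by exact_mod_cast h2)
  rcases hs with rfl | rfl
  · push_cast at h1
    rw [one_mul, one_mul] at h1
    exact_mod_cast h1
  · push_cast at h1
    have : (i.1 : ℝ) = j.1 := by linarith
    exact_mod_cast this

lemma gp_sep {s : ℤ} (hs : s = 1 ∨ s = -1) {i j : ℕ × ℕ} (h : i ≠ j) : 1 ≤ ‖gp s i - gp s j‖ := by
  have h1 : i.1 ≠ j.1 ∨ i.2 ≠ j.2 := by
    by_contra hc
    push Not at hc
    exact h (Prod.ext hc.1 hc.2)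
  rcases h1 with h1 | h1
  · refine le_trans ?_ (Complex.abs_re_le_norm _)
    have h2 : (1 : ℤ) ≤ |(i.1 : ℤ) - j.1| := Int.one_le_abs (by omega)
    have h3 : (1 : ℝ) ≤ |(i.1 : ℝ) - j.1| := by exact_mod_cast h2
    have h4 : (gp s i - gp s j).re = s * ((i.1 : ℝ) - j.1) := by
      rw [Complex.sub_re]
      simp only [gp]
      ring
    rw [h4, abs_mul]
    rcases hs with rfl | rfl
    · simpa using h3
    · simpa using h3
  · refine le_trans ?_ (Complex.abs_im_le_norm _)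
    have h2 : (1 : ℤ) ≤ |(i.2 : ℤ) - j.2| := Int.one_le_abs (by omega)
    have h3 : (1 : ℝ) ≤ |(i.2 : ℝ) - j.2| := by exact_mod_cast h2
    have h4 : (gp s i - gp s j).im = (i.2 : ℝ) - j.2 := by
      rw [Complex.sub_im]
      simp only [gp]
    rw [h4]
    exact h3

theorem sharp (Z : ℝ) (hZ : 3 ≤ Z) : ∃ X Y : Finset ℂ,
    (∀ x ∈ X, ∀ x' ∈ X, x ≠ x' → 1 ≤ ‖x - x'‖) ∧ (∀ y ∈ Y, ∀ y' ∈ Y, y ≠ y' → 1 ≤ ‖y - y'‖) ∧
    (∀ x ∈ X, ‖x‖ ≤ Z) ∧ (∀ y ∈ Y, ‖y‖ ≤ Z) ∧ Z ^ 3 / 27 ≤ (X.card : ℝ) * Y.card ∧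
    (∀ x ∈ X, ∀ y ∈ Y, Z / 3 ≤ ‖x - y‖) ∧
    ∀ r : ℝ, ∃ f g : ℂ → ℝ, ∀ x ∈ X, ∀ y ∈ Y,
      r ≤ ‖x - y‖ + f x + g y ∧ ‖x - y‖ + f x + g y ≤ r + 1 / 4 := by
  classical
  set W : ℕ := ⌊Z / 3⌋₊ with hW
  have hW1 : 1 ≤ W := Nat.le_floor (by push_cast; linarith)
  have hWZ : (W : ℝ) ≤ Z / 3 := Nat.floor_le (by linarith)
  have hWZ' : Z / 3 < W + 1 := Nat.lt_floor_add_one _
  set S : Finset (ℕ × ℕ) := Finset.Icc W (2 * W) ×ˢ Finset.range (Nat.sqrt W + 1) with hS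
  have hSc : S.card = (W + 1) * (Nat.sqrt W + 1) := by
    rw [hS, card_product, Nat.card_Icc, card_range]
    congr 1
    omega
  have hmem : ∀ i ∈ S, (W : ℝ) ≤ i.1 ∧ (i.1 : ℝ) ≤ 2 * W ∧ (i.2 : ℝ) ^ 2 ≤ W ∧ (i.2 : ℝ) ≤ W := by
    intro i hi
    rw [hS, mem_product, Finset.mem_Icc, Finset.mem_range] at hi
    obtain ⟨⟨h1, h2⟩, h3⟩ := hi
    have h4 : i.2 ^ 2 ≤ W := by
      have h5 : i.2 ≤ Nat.sqrt W := by omega
      have h6 := Nat.sqrt_le' W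
      exact (Nat.pow_le_pow_left h5 2).trans h6
    have h5 : i.2 ≤ W := by nlinarith [Nat.zero_le i.2]
    exact ⟨by exact_mod_cast h1, by exact_mod_cast h2, by exact_mod_cast h4, by exact_mod_cast h5⟩
  have hnorm : ∀ s : ℤ, (s = 1 ∨ s = -1) → ∀ x ∈ S.image (gp s), ‖x‖ ≤ Z := by
    intro s hs x hx
    obtain ⟨i, hi, rfl⟩ := mem_image.1 hx
    obtain ⟨h1, h2, -, h4⟩ := hmem i hi
    refine (Complex.norm_le_abs_re_add_abs_im _).trans ?_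
    have h5 : |(gp s i).re| = i.1 := by
      simp only [gp]
      rw [abs_mul]
      rcases hs with rfl | rfl
      · simp
      · simp
    have h6 : |(gp s i).im| = i.2 := by
      simp [gp]
    rw [h5, h6]
    linarith
  have hsepI : ∀ s : ℤ, (s = 1 ∨ s = -1) → ∀ x ∈ S.image (gp s), ∀ x' ∈ S.image (gp s),
      x ≠ x' → 1 ≤ ‖x - x'‖ := by
    intro s hs x hx x' hx' hne
    obtain ⟨i, hi, rfl⟩ := mem_image.1 hx
    obtain ⟨j, hj, rfl⟩ := mem_image.1 hx'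
    exact gp_sep hs fun h => hne (by rw [h])
  have hdiff : ∀ i ∈ S, ∀ j ∈ S, 2 * (W : ℝ) ≤ (i.1 : ℝ) + j.1 ∧
      (i.1 : ℝ) + j.1 ≤ ‖gp 1 i - gp (-1) j‖ ∧ ‖gp 1 i - gp (-1) j‖ ≤ (i.1 : ℝ) + j.1 + 1 / 4 := by
    intro i hi j hj
    obtain ⟨a1, a2, a3, a4⟩ := hmem i hi
    obtain ⟨b1, b2, b3, b4⟩ := hmem j hj
    have hW0 : (1 : ℝ) ≤ W := by exact_mod_cast hW1
    have h1 : ‖gp 1 i - gp (-1) j‖
        = Real.sqrt (((i.1 : ℝ) + j.1) ^ 2 + ((i.2 : ℝ) - j.2) ^ 2) := by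
      rw [Complex.norm_def, Complex.normSq_apply]
      congr 1
      simp only [Complex.sub_re, Complex.sub_im, gp]
      push_cast
      ring
    refine ⟨by linarith, ?_, ?_⟩
    · rw [h1]
      apply Real.le_sqrt_of_sq_le
      nlinarith [sq_nonneg ((i.2 : ℝ) - j.2)]
    · rw [h1]
      apply Real.sqrt_le_iff.2
      refine ⟨by linarith, ?_⟩
      have h2 : ((i.2 : ℝ) - j.2) ^ 2 ≤ W := by
        have h3 : (0 : ℝ) ≤ i.2 := Nat.cast_nonneg _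
        have h4 : (0 : ℝ) ≤ j.2 := Nat.cast_nonneg _
        nlinarith [mul_nonneg h3 h4, sq_nonneg ((i.2 : ℝ) - j.2)]
      nlinarith
  refine ⟨S.image (gp 1), S.image (gp (-1)), hsepI 1 (Or.inl rfl), hsepI (-1) (Or.inr rfl),
    hnorm 1 (Or.inl rfl), hnorm (-1) (Or.inr rfl), ?_, ?_, ?_⟩
  · rw [card_image_of_injective _ (gp_inj (Or.inl rfl)),
      card_image_of_injective _ (gp_inj (Or.inr rfl)), hSc]
    have h1 : W + 1 ≤ (Nat.sqrt W + 1) ^ 2 := by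
      have := Nat.lt_succ_sqrt' W
      exact this
    have h2 : ((W : ℝ) + 1) ≤ ((Nat.sqrt W : ℝ) + 1) ^ 2 := by exact_mod_cast h1
    push_cast
    have hW0 : (0 : ℝ) ≤ W := Nat.cast_nonneg _
    calc Z ^ 3 / 27 = (Z / 3) ^ 3 := by ring
      _ ≤ ((W : ℝ) + 1) ^ 3 := by gcongr
      _ = ((W : ℝ) + 1) ^ 2 * ((W : ℝ) + 1) := by ring
      _ ≤ ((W : ℝ) + 1) ^ 2 * ((Nat.sqrt W : ℝ) + 1) ^ 2 := by gcongr
      _ = _ := by ring
  · intro x hx y hy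
    obtain ⟨i, hi, rfl⟩ := mem_image.1 hx
    obtain ⟨j, hj, rfl⟩ := mem_image.1 hy
    obtain ⟨h1, h2, -⟩ := hdiff i hi j hj
    have hW0 : (1 : ℝ) ≤ W := by exact_mod_cast hW1
    linarith
  · intro r
    refine ⟨fun x => -x.re, fun y => y.re + r, ?_⟩
    intro x hx y hy
    obtain ⟨i, hi, rfl⟩ := mem_image.1 hx
    obtain ⟨j, hj, rfl⟩ := mem_image.1 hy
    obtain ⟨-, h2, h3⟩ := hdiff i hi j hj
    have h4 : (gp 1 i).re = i.1 := by simp [gp]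
    have h5 : (gp (-1) j).re = -j.1 := by simp [gp]
    beta_reduce
    rw [h4, h5]
    constructor <;> linarith

end Pool.Agent.W5h28.PD
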