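import Pool.Agent.W5h28.PD.Pair

set_option autoImplicit false

/-! Bilinear exponential sums with the phase `θ |x - y|` over arbitrary separated sets. -/

namespace Pool.Agent.W5h28.PD

open Set MeasureTheory
open Pool.Agent.H469R2.NK (e norm_e e_add conj_e)

/-- the sum over `Y` -/
noncomputable def G (θ : ℝ) (c : ℂ → ℂ) (Y : Finset ℂ) (z : ℝ × ℝ) : ℂ :=
  ∑ y ∈ Y, c y * e (θ * Rd z.1 z.2 y.re y.im)

lemma G_cont (θ : ℝ) (c : ℂ → ℂ) (Y : Finset ℂ) : Continuous (G θ c Y) := by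
  unfold G
  refine continuous_finsetSum _ fun y _ => continuous_const.mul ?_
  exact e_continuous.comp (continuous_const.mul (Rd_cont2 _ _))

lemma e_lip (x y : ℝ) : ‖e x - e y‖ ≤ 2 * Real.pi * |x - y| := by
  have h1 : e x - e y = e y * (e (x - y) - 1) := by
    rw [mul_sub, ← e_add, mul_one, add_sub_cancel]
  have h2 : e (x - y) = Complex.exp (Complex.I * ((2 * Real.pi * (x - y) : ℝ) : ℂ)) := by
    unfold e
    rw [mul_comm]
  rw [h1, norm_mul, norm_e, one_mul, h2]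
  refine Real.norm_exp_I_mul_ofReal_sub_one_le.trans ?_
  rw [Real.norm_eq_abs, abs_mul, abs_of_pos (by positivity)]

lemma G_lip {θ δ : ℝ} (hθ : 0 < θ) {c : ℂ → ℂ} {Y : Finset ℂ} (hc : ∀ y ∈ Y, ‖c y‖ ≤ 1)
    (z z' : ℝ × ℝ) (hz : |z.1 - z'.1| ≤ δ / 2) (hz2 : |z.2 - z'.2| ≤ δ / 2) :
    ‖G θ c Y z‖ ≤ ‖G θ c Y z'‖ + 2 * Real.pi * θ * δ * Y.card := by
  have h1 : ‖G θ c Y z - G θ c Y z'‖ ≤ 2 * Real.pi * θ * δ * Y.card := by
    unfold G
    rw [← Finset.sum_sub_distrib]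
    have h2 : ∀ y ∈ Y, ‖c y * e (θ * Rd z.1 z.2 y.re y.im) - c y * e (θ * Rd z'.1 z'.2 y.re y.im)‖
        ≤ 2 * Real.pi * θ * δ := by
      intro y hy
      rw [← mul_sub, norm_mul]
      have h3 := e_lip (θ * Rd z.1 z.2 y.re y.im) (θ * Rd z'.1 z'.2 y.re y.im)
      have h4 : |θ * Rd z.1 z.2 y.re y.im - θ * Rd z'.1 z'.2 y.re y.im| ≤ θ * δ := by
        rw [← mul_sub, abs_mul, abs_of_pos hθ]
        have h5 := Rd_lip z.1 z.2 y.re y.im z'.1 z'.2 y.re y.im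
        have h6 : |(z.1 - y.re) - (z'.1 - y.re)| + |(z.2 - y.im) - (z'.2 - y.im)| ≤ δ := by
          rw [sub_sub_sub_cancel_right, sub_sub_sub_cancel_right]
          linarith
        gcongr
        exact h5.trans h6
      calc ‖c y‖ * ‖e (θ * Rd z.1 z.2 y.re y.im) - e (θ * Rd z'.1 z'.2 y.re y.im)‖
          ≤ 1 * (2 * Real.pi * (θ * δ)) := by
            refine mul_le_mul (hc y hy) (h3.trans ?_) (norm_nonneg _) zero_le_one
            have := Real.pi_pos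
            gcongr
        _ = _ := by ring
    refine (norm_sum_le_of_le _ h2).trans ?_
    rw [Finset.sum_const, nsmul_eq_mul]
    linarith
  have h2 := norm_sub_norm_le (G θ c Y z) (G θ c Y z')
  linarith

/-- mean square over the square -/
lemma G_sq {θ a b D : ℝ} {c : ℂ → ℂ} {Y : Finset ℂ} (hc : ∀ y ∈ Y, ‖c y‖ ≤ 1) :
    ∫ z in Sq a b D, ‖G θ c Y z‖ ^ 2 ≤ ∑ y ∈ Y, ∑ y' ∈ Y, ‖J θ a b D y y'‖ := by
  have h1 : ((∫ z in Sq a b D, ‖G θ c Y z‖ ^ 2 : ℝ) : ℂ)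
      = ∑ y ∈ Y, ∑ y' ∈ Y, c y * (starRingEnd ℂ) (c y') * J θ a b D y y' := by
    rw [← integral_complex_ofReal]
    have h2 : ∀ z, ((‖G θ c Y z‖ ^ 2 : ℝ) : ℂ) = ∑ y ∈ Y, ∑ y' ∈ Y,
        c y * (starRingEnd ℂ) (c y') * e (θ * (Rd z.1 z.2 y.re y.im - Rd z.1 z.2 y'.re y'.im)) := by
      intro z
      rw [Complex.ofReal_pow, ← Complex.mul_conj']
      unfold G
      rw [map_sum, Finset.sum_mul_sum]
      refine Finset.sum_congr rfl fun y _ => Finset.sum_congr rfl fun y' _ => ?_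
      rw [map_mul, conj_e, mul_sub, sub_eq_add_neg, e_add]
      ring
    simp only [h2]
    have hint : ∀ y y' : ℂ, IntegrableOn (fun z : ℝ × ℝ => c y * (starRingEnd ℂ) (c y')
        * e (θ * (Rd z.1 z.2 y.re y.im - Rd z.1 z.2 y'.re y'.im))) (Sq a b D) volume := by
      intro y y'
      have hcont : Continuous (fun z : ℝ × ℝ => c y * (starRingEnd ℂ) (c y')
        * e (θ * (Rd z.1 z.2 y.re y.im - Rd z.1 z.2 y'.re y'.im))) :=
        continuous_const.mul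
          (e_continuous.comp (continuous_const.mul ((Rd_cont2 _ _).sub (Rd_cont2 _ _))))
      exact hcont.continuousOn.integrableOn_compact (Sq_compact a b D)
    rw [integral_finsetSum _ fun y _ => integrable_finsetSum _ fun y' _ => hint y y']
    refine Finset.sum_congr rfl fun y _ => ?_
    rw [integral_finsetSum _ fun y' _ => hint y y']
    refine Finset.sum_congr rfl fun y' _ => ?_
    rw [integral_const_mul]
    rfl
  have h3 : 0 ≤ ∫ z in Sq a b D, ‖G θ c Y z‖ ^ 2 := by positivity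
  have h4 : ∫ z in Sq a b D, ‖G θ c Y z‖ ^ 2 = ‖((∫ z in Sq a b D, ‖G θ c Y z‖ ^ 2 : ℝ) : ℂ)‖ := by
    rw [Complex.norm_real, Real.norm_eq_abs, abs_of_nonneg h3]
  rw [h4, h1]
  refine (norm_sum_le _ _).trans (Finset.sum_le_sum fun y hy => (norm_sum_le _ _).trans
    (Finset.sum_le_sum fun y' hy' => ?_))
  rw [norm_mul, norm_mul, Complex.norm_conj]
  have h5 : ‖c y‖ * ‖c y'‖ ≤ 1 * 1 :=
    mul_le_mul (hc y hy) (hc y' hy') (norm_nonneg _) zero_le_one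
  calc ‖c y‖ * ‖c y'‖ * ‖J θ a b D y y'‖ ≤ 1 * 1 * ‖J θ a b D y y'‖ := by gcongr
    _ = _ := by ring

/-- small squares -/
def Sm (δ : ℝ) (x : ℂ) : Set (ℝ × ℝ) :=
  Icc (x.re - δ / 2) (x.re + δ / 2) ×ˢ Icc (x.im - δ / 2) (x.im + δ / 2)

lemma Sm_meas (δ : ℝ) (x : ℂ) : MeasurableSet (Sm δ x) := measurableSet_Icc.prod measurableSet_Icc

lemma Sm_vol {δ : ℝ} (hδ : 0 < δ) (x : ℂ) : volume.real (Sm δ x) = δ ^ 2 := by
  unfold Sm
  rw [Measure.real, Measure.volume_eq_prod, Measure.prod_prod, Real.volume_Icc, Real.volume_Icc,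
    ← ENNReal.ofReal_mul (by linarith), ENNReal.toReal_ofReal (by nlinarith)]
  ring

lemma Sm_disj {δ : ℝ} (hδ1 : δ < 1 / 2) {x x' : ℂ} (h : 1 ≤ ‖x - x'‖) :
    Disjoint (Sm δ x) (Sm δ x') := by
  rw [Set.disjoint_left]
  rintro z ⟨⟨h1, h2⟩, ⟨h3, h4⟩⟩ ⟨⟨h5, h6⟩, ⟨h7, h8⟩⟩
  have h9 : |(x - x').re| ≤ δ := by
    rw [Complex.sub_re, abs_le]
    constructor <;> linarith
  have h10 : |(x - x').im| ≤ δ := by
    rw [Complex.sub_im, abs_le]
    constructor <;> linarith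
  have h11 := Complex.norm_le_abs_re_add_abs_im (x - x')
  linarith

/-- the sum over `X` of one strip -/
theorem strip_bil {θ a b D K b' δ τ : ℝ} (hD : 1 ≤ D) (hK : 1 ≤ K) (hθ : 0 < θ) (hδ : 0 < δ)
    (hδ1 : δ < 1 / 2) (hτ : 0 < τ) {X Y : Finset ℂ}
    (hsX : ∀ x ∈ X, ∀ x' ∈ X, x ≠ x' → 1 ≤ ‖x - x'‖)
    (hX : ∀ x ∈ X, a + 1 / 2 ≤ x.re ∧ x.re ≤ a + D + 1 / 2 ∧ b + 1 / 2 ≤ x.im ∧
      x.im ≤ b + D + 1 / 2)
    (hsep : ∀ y ∈ Y, ∀ y' ∈ Y, y ≠ y' → 1 ≤ ‖y - y'‖) (k : ℤ) (hk : ∀ y ∈ Y, ⌊2 * y.re⌋ = k)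
    (hY : ∀ y ∈ Y, Below a b D K y) (hb : ∀ y ∈ Y, b' ≤ y.im ∧ y.im ≤ b' + D)
    {c : ℂ → ℂ} (hc : ∀ y ∈ Y, ‖c y‖ ≤ 1) :
    ∑ x ∈ X, ‖G θ c Y (x.re, x.im)‖ ≤ X.card * Y.card * (τ + 2 * Real.pi * θ * δ)
      + 6000000 * K ^ 7 * D ^ 2 * (1 + 1 / θ) * (1 + Real.log (2 * D + 3)) / (4 * τ * δ ^ 2) := by
  have hpi := Real.pi_pos
  have hD0 : 0 < D := by linarith
  have hlog : 0 ≤ Real.log (2 * D + 3) := Real.log_nonneg (by linarith)
  set B : ℝ := 6000000 * K ^ 7 * D ^ 2 * (1 + 1 / θ) * (1 + Real.log (2 * D + 3)) with hB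
  have hB0 : 0 ≤ B := by positivity
  rcases Y.eq_empty_or_nonempty with hYe | hYn
  · rw [hYe]
    simp only [G, Finset.sum_empty, norm_zero, Finset.sum_const_zero, Finset.card_empty,
      Nat.cast_zero, mul_zero, zero_mul, zero_add]
    positivity
  have hYc : (0 : ℝ) < Y.card := by
    have := hYn.card_pos
    exact_mod_cast this
  have hGc : Continuous fun z => ‖G θ c Y z‖ ^ 2 := (G_cont θ c Y).norm.pow 2
  have hsub : ∀ x ∈ X, Sm δ x ⊆ Sq a b D := by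
    intro x hx z hz
    obtain ⟨⟨h1, h2⟩, ⟨h3, h4⟩⟩ := hz
    obtain ⟨h5, h6, h7, h8⟩ := hX x hx
    exact ⟨⟨by linarith, by linarith⟩, ⟨by linarith, by linarith⟩⟩
  have hI : ∀ x ∈ X, IntegrableOn (fun z => ‖G θ c Y z‖ ^ 2) (Sm δ x) volume := fun x _ =>
    hGc.continuousOn.integrableOn_compact (isCompact_Icc.prod isCompact_Icc)
  -- one small square
  set w : ℝ := 4 * τ * Y.card with hw
  have hw0 : 0 < w := by positivity
  have h1 : ∀ x ∈ X, δ ^ 2 * ‖G θ c Y (x.re, x.im)‖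
      ≤ δ ^ 2 * (Y.card * (τ + 2 * Real.pi * θ * δ)) + w⁻¹ * ∫ z in Sm δ x, ‖G θ c Y z‖ ^ 2 := by
    intro x hx
    have hfin : volume (Sm δ x) < ⊤ := by
      have : IsCompact (Sm δ x) := isCompact_Icc.prod isCompact_Icc
      exact this.measure_lt_top
    have h2 : ∫ _z in Sm δ x, ‖G θ c Y (x.re, x.im)‖
        ≤ ∫ z in Sm δ x, (Y.card * (τ + 2 * Real.pi * θ * δ) + w⁻¹ * ‖G θ c Y z‖ ^ 2) := by
      refine setIntegral_mono_on (integrableOn_const hfin.ne) ?_ (Sm_meas δ x) ?_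
      · exact (integrableOn_const hfin.ne).add ((hI x hx).const_mul _)
      · rintro z ⟨⟨h1, h2⟩, ⟨h3, h4⟩⟩
        have h5 := G_lip (δ := δ) hθ hc (x.re, x.im) z
          (by simp only; rw [abs_le]; constructor <;> linarith)
          (by simp only; rw [abs_le]; constructor <;> linarith)
        have h6 : ‖G θ c Y z‖ ≤ τ * Y.card + w⁻¹ * ‖G θ c Y z‖ ^ 2 := by
          have h7 : 0 ≤ (‖G θ c Y z‖ - 2 * τ * Y.card) ^ 2 := sq_nonneg _
          have h8 : w⁻¹ * (‖G θ c Y z‖ - 2 * τ * Y.card) ^ 2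
              = w⁻¹ * ‖G θ c Y z‖ ^ 2 - ‖G θ c Y z‖ + τ * Y.card := by
            rw [hw]
            field_simp
            ring
          have h9 : 0 ≤ w⁻¹ * (‖G θ c Y z‖ - 2 * τ * Y.card) ^ 2 := by positivity
          linarith
        calc ‖G θ c Y (x.re, x.im)‖ ≤ ‖G θ c Y z‖ + 2 * Real.pi * θ * δ * Y.card := h5
          _ ≤ τ * Y.card + w⁻¹ * ‖G θ c Y z‖ ^ 2 + 2 * Real.pi * θ * δ * Y.card := by linarith
          _ = _ := by ring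
    rw [setIntegral_const, Sm_vol hδ, smul_eq_mul] at h2
    refine h2.trans (le_of_eq ?_)
    have hi1 : IntegrableOn (fun _ : ℝ × ℝ => (Y.card * (τ + 2 * Real.pi * θ * δ) : ℝ)) (Sm δ x)
      volume := integrableOn_const hfin.ne
    rw [integral_add hi1 ((hI x hx).const_mul _), setIntegral_const,
      Sm_vol hδ, smul_eq_mul, integral_const_mul]
  have h2 : ∑ x ∈ X, ∫ z in Sm δ x, ‖G θ c Y z‖ ^ 2 ≤ Y.card * B := by
    rw [← integral_biUnion_finset X (fun x _ => Sm_meas δ x) (by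
      intro x hx x' hx' hne
      exact Sm_disj hδ1 (hsX x hx x' hx' hne)) hI]
    refine le_trans (setIntegral_mono_set (t := Sq a b D)
      (hGc.continuousOn.integrableOn_compact (Sq_compact a b D)) ?_ ?_) ?_
    · exact Filter.Eventually.of_forall fun z => by positivity
    · exact (Set.iUnion₂_subset hsub).eventuallyLE
    · refine (G_sq hc).trans ?_
      exact strip_sum hD hK hθ hsep k hk hY hb
  have h3 : δ ^ 2 * ∑ x ∈ X, ‖G θ c Y (x.re, x.im)‖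
      ≤ δ ^ 2 * (X.card * Y.card * (τ + 2 * Real.pi * θ * δ)) + w⁻¹ * (Y.card * B) := by
    rw [Finset.mul_sum]
    refine (Finset.sum_le_sum h1).trans ?_
    rw [Finset.sum_add_distrib, Finset.sum_const, nsmul_eq_mul, ← Finset.mul_sum]
    have h4 : w⁻¹ * ∑ x ∈ X, ∫ z in Sm δ x, ‖G θ c Y z‖ ^ 2 ≤ w⁻¹ * (Y.card * B) := by gcongr
    have h5 : (X.card : ℝ) * (δ ^ 2 * (Y.card * (τ + 2 * Real.pi * θ * δ)))
        = δ ^ 2 * (X.card * Y.card * (τ + 2 * Real.pi * θ * δ)) := by ring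
    linarith
  have h4 : w⁻¹ * (Y.card * B) = δ ^ 2 * (B / (4 * τ * δ ^ 2)) := by
    rw [hw]
    field_simp
  rw [h4, ← mul_add] at h3
  exact le_of_mul_le_mul_left h3 (by positivity)

/-- All strips together. -/
theorem bil {θ a b D K a' b' δ τ : ℝ} (hD : 1 ≤ D) (hK : 1 ≤ K) (hθ : 0 < θ) (hδ : 0 < δ)
    (hδ1 : δ < 1 / 2) (hτ : 0 < τ) {X Y : Finset ℂ}
    (hsX : ∀ x ∈ X, ∀ x' ∈ X, x ≠ x' → 1 ≤ ‖x - x'‖)
    (hX : ∀ x ∈ X, a + 1 / 2 ≤ x.re ∧ x.re ≤ a + D + 1 / 2 ∧ b + 1 / 2 ≤ x.im ∧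
      x.im ≤ b + D + 1 / 2)
    (hsep : ∀ y ∈ Y, ∀ y' ∈ Y, y ≠ y' → 1 ≤ ‖y - y'‖)
    (hY : ∀ y ∈ Y, Below a b D K y)
    (hb : ∀ y ∈ Y, a' ≤ y.re ∧ y.re ≤ a' + D ∧ b' ≤ y.im ∧ y.im ≤ b' + D)
    {c : ℂ → ℂ} (hc : ∀ y ∈ Y, ‖c y‖ ≤ 1) :
    ∑ x ∈ X, ‖∑ y ∈ Y, c y * e (θ * ‖x - y‖)‖ ≤ X.card * Y.card * (τ + 2 * Real.pi * θ * δ)
      + 6000000 * K ^ 7 * D ^ 3 * (1 + 1 / θ) * (1 + Real.log (2 * D + 3)) / (τ * δ ^ 2) := by
  classical
  have hpi := Real.pi_pos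
  have hD0 : 0 < D := by linarith
  have hlog : 0 ≤ Real.log (2 * D + 3) := Real.log_nonneg (by linarith)
  set B : ℝ := 6000000 * K ^ 7 * D ^ 2 * (1 + 1 / θ) * (1 + Real.log (2 * D + 3)) with hB
  have hB0 : 0 ≤ B := by positivity
  set T : Finset ℤ := Finset.Icc ⌊2 * a'⌋ ⌊2 * (a' + D)⌋ with hT
  have hmaps : ∀ y ∈ Y, ⌊2 * y.re⌋ ∈ T := by
    intro y hy
    rw [hT, Finset.mem_Icc]
    obtain ⟨h1, h2, -, -⟩ := hb y hy
    exact ⟨Int.floor_le_floor (by linarith), Int.floor_le_floor (by linarith)⟩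
  have hTc : (T.card : ℝ) ≤ 4 * D := by
    rw [hT, Int.card_Icc]
    have h1 := Int.floor_le (2 * (a' + D))
    have h2 := Int.lt_floor_add_one (2 * a')
    have h3 : (((⌊2 * (a' + D)⌋ + 1 - ⌊2 * a'⌋).toNat : ℕ) : ℝ)
        = (((⌊2 * (a' + D)⌋ + 1 - ⌊2 * a'⌋ : ℤ)) : ℝ) := by
      have h4 : 0 ≤ ⌊2 * (a' + D)⌋ + 1 - ⌊2 * a'⌋ := by
        have := Int.floor_le_floor (by linarith : 2 * a' ≤ 2 * (a' + D))
        omega
      exact_mod_cast Int.toNat_of_nonneg h4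
    rw [h3]
    push_cast
    linarith
  have h1 : ∀ x : ℂ, ∑ y ∈ Y, c y * e (θ * ‖x - y‖)
      = ∑ k ∈ T, G θ c (Y.filter fun y => ⌊2 * y.re⌋ = k) (x.re, x.im) := by
    intro x
    rw [← Finset.sum_fiberwise_of_maps_to hmaps]
    refine Finset.sum_congr rfl fun k _ => Finset.sum_congr rfl fun y _ => ?_
    rw [Rd_norm]
    congr 4
  simp only [h1]
  have h2 : ∑ x ∈ X, ‖∑ k ∈ T, G θ c (Y.filter fun y => ⌊2 * y.re⌋ = k) (x.re, x.im)‖
      ≤ ∑ k ∈ T, ∑ x ∈ X, ‖G θ c (Y.filter fun y => ⌊2 * y.re⌋ = k) (x.re, x.im)‖ := by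
    rw [Finset.sum_comm]
    exact Finset.sum_le_sum fun x _ => norm_sum_le _ _
  refine h2.trans ?_
  have h3 : ∀ k ∈ T, ∑ x ∈ X, ‖G θ c (Y.filter fun y => ⌊2 * y.re⌋ = k) (x.re, x.im)‖
      ≤ X.card * (Y.filter fun y => ⌊2 * y.re⌋ = k).card * (τ + 2 * Real.pi * θ * δ)
        + B / (4 * τ * δ ^ 2) := by
    intro k _
    refine strip_bil (b' := b') hD hK hθ hδ hδ1 hτ hsX hX ?_ k ?_ ?_ ?_ ?_
    · intro y hy y' hy' hne
      exact hsep y (Finset.mem_filter.1 hy).1 y' (Finset.mem_filter.1 hy').1 hne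
    · intro y hy
      exact (Finset.mem_filter.1 hy).2
    · intro y hy
      exact hY y (Finset.mem_filter.1 hy).1
    · intro y hy
      exact (hb y (Finset.mem_filter.1 hy).1).2.2
    · intro y hy
      exact hc y (Finset.mem_filter.1 hy).1
  refine (Finset.sum_le_sum h3).trans ?_
  rw [Finset.sum_add_distrib, Finset.sum_const, nsmul_eq_mul, ← Finset.sum_mul, ← Finset.mul_sum]
  have h4 : (∑ k ∈ T, ((Y.filter fun y => ⌊2 * y.re⌋ = k).card : ℝ)) = Y.card := by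
    rw [Finset.card_eq_sum_card_fiberwise (f := fun y : ℂ => ⌊2 * y.re⌋) (t := T) hmaps]
    push_cast
    rfl
  rw [h4]
  have h5 : (T.card : ℝ) * (B / (4 * τ * δ ^ 2)) ≤ 4 * D * (B / (4 * τ * δ ^ 2)) := by gcongr
  have h6 : 4 * D * (B / (4 * τ * δ ^ 2))
      = 6000000 * K ^ 7 * D ^ 3 * (1 + 1 / θ) * (1 + Real.log (2 * D + 3)) / (τ * δ ^ 2) := by
    rw [hB]
    field_simp
  linarith

end Pool.Agent.W5h28.PD
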