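import Mathlib

set_option autoImplicit false

/-! Two separated sets with many pairs are dense in two cells at a distance comparable to the side. -/

namespace Pool.Agent.W5h28.PD

open Finset

/-- the cell of side `20 ^ n` of a point -/
noncomputable def cell (n : ℕ) (z : ℂ) : ℤ × ℤ := (⌊z.re / 20 ^ n⌋, ⌊z.im / 20 ^ n⌋)

/-- the points in a cell -/
noncomputable def inCell (X : Finset ℂ) (n : ℕ) (P : ℤ × ℤ) : Finset ℂ :=
  X.filter fun z => cell n z = P

lemma cell_succ (n : ℕ) (z : ℂ) : (cell n z).1 / 20 = (cell (n + 1) z).1 ∧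
    (cell n z).2 / 20 = (cell (n + 1) z).2 := by
  unfold cell
  have h : ∀ r : ℝ, ⌊r / 20 ^ n⌋ / 20 = ⌊r / 20 ^ (n + 1)⌋ := by
    intro r
    have h1 := Int.floor_div_natCast (r / 20 ^ n) 20
    rw [← Nat.cast_ofNat (R := ℤ), ← h1, pow_succ]
    congr 1
    push_cast
    rw [div_div]
  exact ⟨h _, h _⟩

/-- the children of a cell -/
noncomputable def ch (P : ℤ × ℤ) : Finset (ℤ × ℤ) :=
  Finset.Icc (20 * P.1) (20 * P.1 + 19) ×ˢ Finset.Icc (20 * P.2) (20 * P.2 + 19)

lemma ch_card (P : ℤ × ℤ) : (ch P).card = 400 := by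
  unfold ch
  rw [card_product, Int.card_Icc, Int.card_Icc]
  have h1 : (20 * P.1 + 19 + 1 - 20 * P.1).toNat = 20 := by omega
  have h2 : (20 * P.2 + 19 + 1 - 20 * P.2).toNat = 20 := by omega
  rw [h1, h2]

lemma inCell_card (X : Finset ℂ) (n : ℕ) (P : ℤ × ℤ) :
    (inCell X (n + 1) P).card = ∑ p ∈ ch P, (inCell X n p).card := by
  classical
  rw [card_eq_sum_card_fiberwise (s := inCell X (n + 1) P) (f := cell n) (t := ch P)]
  · refine Finset.sum_congr rfl fun p hp => ?_
    congr 1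
    ext z
    simp only [inCell, mem_filter]
    constructor
    · rintro ⟨⟨h1, -⟩, h3⟩
      exact ⟨h1, h3⟩
    · rintro ⟨h1, h2⟩
      refine ⟨⟨h1, ?_⟩, h2⟩
      obtain ⟨h3, h4⟩ := cell_succ n z
      rw [h2] at h3 h4
      rw [ch, mem_product, Finset.mem_Icc, Finset.mem_Icc] at hp
      exact Prod.ext (by omega) (by omega)
  · intro z hz
    rw [inCell, coe_filter] at hz
    obtain ⟨-, hz⟩ := hz
    obtain ⟨h3, h4⟩ := cell_succ n z
    rw [hz] at h3 h4
    simp only [ch, coe_product, Set.mem_prod, coe_Icc, Set.mem_Icc]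
    omega

/-- the number of separated points in a cell -/
lemma inCell_le {X : Finset ℂ} (hsep : ∀ y ∈ X, ∀ y' ∈ X, y ≠ y' → 1 ≤ ‖y - y'‖) (n : ℕ)
    (P : ℤ × ℤ) : (inCell X n P).card ≤ 4 * (20 ^ n) ^ 2 := by
  classical
  set T : Finset (ℤ × ℤ) := Finset.Ico (2 * 20 ^ n * P.1) (2 * 20 ^ n * P.1 + 2 * 20 ^ n) ×ˢ
    Finset.Ico (2 * 20 ^ n * P.2) (2 * 20 ^ n * P.2 + 2 * 20 ^ n) with hT
  have hTc : T.card = 4 * (20 ^ n) ^ 2 := by
    rw [hT, card_product, Int.card_Ico, Int.card_Ico]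
    have h1 : ∀ a : ℤ, (a + 2 * 20 ^ n - a).toNat = 2 * 20 ^ n := by
      intro a
      have : a + 2 * 20 ^ n - a = ((2 * 20 ^ n : ℕ) : ℤ) := by push_cast; ring
      rw [this, Int.toNat_natCast]
    rw [h1, h1]
    ring
  rw [← hTc]
  apply card_le_card_of_injOn (fun z : ℂ => (⌊2 * z.re⌋, ⌊2 * z.im⌋))
  · intro z hz
    rw [inCell, coe_filter] at hz
    obtain ⟨-, hz⟩ := hz
    have hL : (0 : ℝ) < 20 ^ n := by positivity
    have key : ∀ (r : ℝ) (k : ℤ), ⌊r / 20 ^ n⌋ = k →
        2 * 20 ^ n * k ≤ ⌊2 * r⌋ ∧ ⌊2 * r⌋ < 2 * 20 ^ n * k + 2 * 20 ^ n := by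
      intro r k h
      rw [Int.floor_eq_iff] at h
      obtain ⟨h1, h2⟩ := h
      rw [le_div_iff₀ hL] at h1
      rw [div_lt_iff₀ hL] at h2
      constructor
      · rw [Int.le_floor]
        push_cast
        linarith
      · rw [Int.floor_lt]
        push_cast
        linarith
    have h1 := key z.re P.1 (congrArg Prod.fst hz)
    have h2 := key z.im P.2 (congrArg Prod.snd hz)
    rw [hT]
    simp only [coe_product, Set.mem_prod, coe_Ico, Set.mem_Ico]
    exact ⟨h1, h2⟩
  · intro y hy y' hy' h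
    have hy1 : y ∈ X := (mem_filter.1 (mem_coe.1 hy)).1
    have hy1' : y' ∈ X := (mem_filter.1 (mem_coe.1 hy')).1
    by_contra hne
    have h1 := hsep y hy1 y' hy1' hne
    have h2 : ⌊2 * y.re⌋ = ⌊2 * y'.re⌋ := congrArg Prod.fst h
    have h3 : ⌊2 * y.im⌋ = ⌊2 * y'.im⌋ := congrArg Prod.snd h
    have h4 := Int.floor_le (2 * y.re)
    have h5 := Int.lt_floor_add_one (2 * y.re)
    have h6 := Int.floor_le (2 * y'.re)
    have h7 := Int.lt_floor_add_one (2 * y'.re)
    have h8 := Int.floor_le (2 * y.im)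
    have h9 := Int.lt_floor_add_one (2 * y.im)
    have h10 := Int.floor_le (2 * y'.im)
    have h11 := Int.lt_floor_add_one (2 * y'.im)
    rw [h2] at h4 h5
    rw [h3] at h8 h9
    have h12 : |(y - y').re| < 1 / 2 := by
      rw [Complex.sub_re, abs_lt]
      constructor <;> linarith
    have h13 : |(y - y').im| < 1 / 2 := by
      rw [Complex.sub_im, abs_lt]
      constructor <;> linarith
    have h14 := Complex.norm_le_abs_re_add_abs_im (y - y')
    linarith

/-- adjacent cells -/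
def Adj (p p' : ℤ × ℤ) : Prop := |p.1 - p'.1| ≤ 1 ∧ |p.2 - p'.2| ≤ 1

noncomputable instance : DecidableRel Adj := fun _ _ => inferInstanceAs (Decidable (_ ∧ _))

theorem box {X Y : Finset ℂ} (hX : ∀ y ∈ X, ∀ y' ∈ X, y ≠ y' → 1 ≤ ‖y - y'‖)
    (hY : ∀ y ∈ Y, ∀ y' ∈ Y, y ≠ y' → 1 ≤ ‖y - y'‖) {A : ℝ} (hA : 16 < A) (n : ℕ) :
    ∀ P P' : ℤ × ℤ, Adj P P' →
      A * (20 ^ n) ^ 3 ≤ ((inCell X n P).card : ℝ) * (inCell Y n P').card →
      ∃ (m : ℕ) (p p' : ℤ × ℤ), m < n ∧ ¬ Adj p p' ∧ |p.1 - p'.1| ≤ 39 ∧ |p.2 - p'.2| ≤ 39 ∧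
        A / 40 * (20 ^ m) ^ 3 ≤ ((inCell X m p).card : ℝ) * (inCell Y m p').card := by
  classical
  have hA0 : 0 < A := by linarith
  induction n with
  | zero =>
    intro P P' _ h
    exfalso
    have h1 := inCell_le hX 0 P
    have h2 := inCell_le hY 0 P'
    have h3 : ((inCell X 0 P).card : ℝ) ≤ 4 := by exact_mod_cast h1
    have h4 : ((inCell Y 0 P').card : ℝ) ≤ 4 := by exact_mod_cast h2
    have h5 : ((inCell X 0 P).card : ℝ) * (inCell Y 0 P').card ≤ 4 * 4 := by gcongr
    rw [pow_zero, one_pow, mul_one] at h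
    linarith
  | succ n ih =>
    intro P P' hadj h
    by_contra hcon
    push Not at hcon
    set D : ℝ := 20 ^ n with hD
    have hD0 : 0 < D := by positivity
    -- every pair of children
    have h1 : ∀ p ∈ ch P, ∀ p' ∈ ch P', ((inCell X n p).card : ℝ) * (inCell Y n p').card
        ≤ (if Adj p p' then A * D ^ 3 else 0) + A / 40 * D ^ 3 := by
      intro p hp p' hp'
      split_ifs with hpp
      · have h2 : ((inCell X n p).card : ℝ) * (inCell Y n p').card ≤ A * D ^ 3 := by
          by_contra hlt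
          push Not at hlt
          obtain ⟨m, q, q', hm, h3, h4, h5, h6⟩ := ih p p' hpp hlt.le
          exact absurd h6 (not_le.2 (hcon m q q' (by omega) h3 h4 h5))
        have h3 : 0 ≤ A / 40 * D ^ 3 := by positivity
        linarith
      · rw [zero_add]
        rw [ch, mem_product, Finset.mem_Icc, Finset.mem_Icc] at hp hp'
        have h2 := hadj.1
        have h3 := hadj.2
        rw [abs_le] at h2 h3
        exact (hcon n p p' (by omega) hpp (by rw [abs_le]; omega) (by rw [abs_le]; omega)).le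
    have h2 : ((inCell X (n + 1) P).card : ℝ) * (inCell Y (n + 1) P').card
        ≤ 7600 * (A * D ^ 3) := by
      rw [inCell_card, inCell_card]
      push_cast
      rw [sum_mul_sum]
      refine (sum_le_sum fun p hp => sum_le_sum fun p' hp' => h1 p hp p' hp').trans ?_
      have h3 : ∀ p ∈ ch P, ∑ p' ∈ ch P', ((if Adj p p' then A * D ^ 3 else 0) + A / 40 * D ^ 3)
          ≤ 19 * (A * D ^ 3) := by
        intro p _
        rw [sum_add_distrib, sum_const, ch_card, ← sum_filter, sum_const, nsmul_eq_mul,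
          nsmul_eq_mul]
        have h4 : ((ch P').filter fun p' => Adj p p').card ≤ 9 := by
          have h5 : ((ch P').filter fun p' => Adj p p') ⊆
              Finset.Icc (p.1 - 1) (p.1 + 1) ×ˢ Finset.Icc (p.2 - 1) (p.2 + 1) := by
            intro p' hp'
            obtain ⟨-, h6, h7⟩ := mem_filter.1 hp'
            rw [abs_le] at h6 h7
            rw [mem_product, Finset.mem_Icc, Finset.mem_Icc]
            omega
          refine (card_le_card h5).trans ?_
          rw [card_product, Int.card_Icc, Int.card_Icc]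
          have h6 : (p.1 + 1 + 1 - (p.1 - 1)).toNat = 3 := by omega
          have h7 : (p.2 + 1 + 1 - (p.2 - 1)).toNat = 3 := by omega
          rw [h6, h7]
        have h5 : ((((ch P').filter fun p' => Adj p p').card : ℕ) : ℝ) ≤ 9 := by exact_mod_cast h4
        have h6 : 0 ≤ A * D ^ 3 := by positivity
        push_cast
        nlinarith
      refine (sum_le_sum h3).trans ?_
      rw [sum_const, ch_card, nsmul_eq_mul]
      push_cast
      linarith
    have h3 : A * ((20 : ℝ) ^ (n + 1)) ^ 3 = 8000 * (A * D ^ 3) := by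
      rw [hD]
      ring
    rw [h3] at h
    have h6 : 0 < A * D ^ 3 := by positivity
    linarith

end Pool.Agent.W5h28.PD
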