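import Pool.Agent.W5h28.PD.Bil
import Pool.Agent.W5h28.PD.Box

set_option autoImplicit false

/-! The bilinear bound for two cells that are not adjacent. -/

namespace Pool.Agent.W5h28.PD

open Set MeasureTheory
open Pool.Agent.H469R2.NK (e norm_e e_add conj_e)

/-- the point `z` is in the cell `p` of side `D` -/
structure InBox (D : ℝ) (p : ℤ × ℤ) (z : ℂ) : Prop where
  h1 : p.1 * D ≤ z.re
  h2 : z.re ≤ (p.1 + 1) * D
  h3 : p.2 * D ≤ z.im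
  h4 : z.im ≤ (p.2 + 1) * D

lemma inBox_of {X : Finset ℂ} {m : ℕ} {p : ℤ × ℤ} {z : ℂ} (hz : z ∈ inCell X m p) :
    z ∈ X ∧ InBox (20 ^ m) p z := by
  obtain ⟨h1, h2⟩ := Finset.mem_filter.1 hz
  have hL : (0 : ℝ) < 20 ^ m := by positivity
  have key : ∀ (r : ℝ) (k : ℤ), ⌊r / 20 ^ m⌋ = k → k * 20 ^ m ≤ r ∧ r ≤ (k + 1) * 20 ^ m := by
    intro r k h
    rw [Int.floor_eq_iff] at h
    obtain ⟨h1, h2⟩ := h
    rw [le_div_iff₀ hL] at h1
    rw [div_lt_iff₀ hL] at h2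
    exact ⟨h1, h2.le⟩
  have h3 := key z.re p.1 (congrArg Prod.fst h2)
  have h4 := key z.im p.2 (congrArg Prod.snd h2)
  exact ⟨h1, h3.1, h3.2, h4.1, h4.2⟩

/-- the right hand side -/
noncomputable def Bd (N D θ δ τ : ℝ) : ℝ :=
  N * (τ + 2 * Real.pi * θ * δ)
    + 6000000 * 50 ^ 7 * D ^ 3 * (1 + 1 / θ) * (1 + Real.log (2 * D + 3)) / (τ * δ ^ 2)

/-- `Y` lies below `X`. -/
theorem core1 {D θ δ τ : ℝ} (hD : 1 ≤ D) (hθ : 0 < θ) (hδ : 0 < δ) (hδ1 : δ < 1 / 2)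
    (hτ : 0 < τ) {X Y : Finset ℂ} (hX : ∀ x ∈ X, ∀ x' ∈ X, x ≠ x' → 1 ≤ ‖x - x'‖)
    (hY : ∀ y ∈ Y, ∀ y' ∈ Y, y ≠ y' → 1 ≤ ‖y - y'‖) {p p' : ℤ × ℤ}
    (hXp : ∀ x ∈ X, InBox D p x) (hYp : ∀ y ∈ Y, InBox D p' y) (h : p'.1 + 2 ≤ p.1)
    (h1 : |p.1 - p'.1| ≤ 39) (h2 : |p.2 - p'.2| ≤ 39) (f g : ℂ → ℝ) :
    ‖∑ x ∈ X, ∑ y ∈ Y, e (θ * (‖x - y‖ + f x + g y))‖ ≤ Bd (X.card * Y.card) D θ δ τ := by
  have hD0 : 0 < D := by linarith
  have e1 : ∀ x ∈ X, ‖∑ y ∈ Y, e (θ * (‖x - y‖ + f x + g y))‖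
      = ‖∑ y ∈ Y, e (θ * g y) * e (θ * ‖x - y‖)‖ := by
    intro x _
    have : ∑ y ∈ Y, e (θ * (‖x - y‖ + f x + g y))
        = e (θ * f x) * ∑ y ∈ Y, e (θ * g y) * e (θ * ‖x - y‖) := by
      rw [Finset.mul_sum]
      refine Finset.sum_congr rfl fun y _ => ?_
      rw [← e_add, ← e_add]
      congr 1
      ring
    rw [this, norm_mul, norm_e, one_mul]
  refine (norm_sum_le _ _).trans ?_
  rw [Finset.sum_congr rfl e1]
  rw [abs_le] at h1 h2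
  have c1 : (p'.1 : ℝ) + 2 ≤ p.1 := by exact_mod_cast h
  have c2 : (p.1 : ℝ) ≤ p'.1 + 39 := by
    have : p.1 ≤ p'.1 + 39 := by omega
    exact_mod_cast this
  have c3 : (p.2 : ℝ) ≤ p'.2 + 39 := by
    have : p.2 ≤ p'.2 + 39 := by omega
    exact_mod_cast this
  have c4 : (p'.2 : ℝ) ≤ p.2 + 39 := by
    have : p'.2 ≤ p.2 + 39 := by omega
    exact_mod_cast this
  have d1 : ((p'.1 : ℝ) + 2) * D ≤ p.1 * D := by gcongr
  have d2 : (p.1 : ℝ) * D ≤ (p'.1 + 39) * D := by gcongr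
  have d3 : (p.2 : ℝ) * D ≤ (p'.2 + 39) * D := by gcongr
  have d4 : (p'.2 : ℝ) * D ≤ (p.2 + 39) * D := by gcongr
  have := bil (θ := θ) (a := p.1 * D - 1 / 2) (b := p.2 * D - 1 / 2) (D := D) (K := 50)
    (a' := p'.1 * D) (b' := p'.2 * D) (δ := δ) (τ := τ) hD (by norm_num) hθ hδ hδ1 hτ (X := X)
    (Y := Y) hX ?_ hY ?_ ?_ (c := fun y => e (θ * g y)) (fun y _ => (norm_e _).le)
  · exact this
  · intro x hx
    obtain ⟨h1, h2, h3, h4⟩ := hXp x hx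
    refine ⟨by linarith, by linarith, by linarith, by linarith⟩
  · intro y hy
    obtain ⟨h1, h2, h3, h4⟩ := hYp y hy
    refine ⟨fun s hs => ⟨?_, ?_⟩, fun t ht => ?_⟩
    · linarith [hs.1, hs.2]
    · linarith [hs.1, hs.2]
    · rw [abs_le]
      constructor <;> linarith [ht.1, ht.2]
  · intro y hy
    obtain ⟨h1, h2, h3, h4⟩ := hYp y hy
    exact ⟨h1, by linarith, h3, by linarith⟩

/-- exchange the coordinates -/
def sw (z : ℂ) : ℂ := ⟨z.im, z.re⟩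

lemma sw_inj : Function.Injective sw := by
  intro z w h
  have h1 := congrArg Complex.re h
  have h2 := congrArg Complex.im h
  exact Complex.ext h2 h1

lemma sw_norm (z w : ℂ) : ‖sw z - sw w‖ = ‖z - w‖ := by
  rw [Complex.norm_def, Complex.norm_def, Complex.normSq_apply, Complex.normSq_apply]
  congr 1
  simp only [sw, Complex.sub_re, Complex.sub_im]
  ring

theorem core {D θ δ τ : ℝ} (hD : 1 ≤ D) (hθ : 0 < θ) (hδ : 0 < δ) (hδ1 : δ < 1 / 2)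
    (hτ : 0 < τ) {X Y : Finset ℂ} (hX : ∀ x ∈ X, ∀ x' ∈ X, x ≠ x' → 1 ≤ ‖x - x'‖)
    (hY : ∀ y ∈ Y, ∀ y' ∈ Y, y ≠ y' → 1 ≤ ‖y - y'‖) {p p' : ℤ × ℤ}
    (hXp : ∀ x ∈ X, InBox D p x) (hYp : ∀ y ∈ Y, InBox D p' y) (h : ¬ Adj p p')
    (h1 : |p.1 - p'.1| ≤ 39) (h2 : |p.2 - p'.2| ≤ 39) (f g : ℂ → ℝ) :
    ‖∑ x ∈ X, ∑ y ∈ Y, e (θ * (‖x - y‖ + f x + g y))‖ ≤ Bd (X.card * Y.card) D θ δ τ := by
  classical
  -- the first coordinate
  have key : ∀ {X Y : Finset ℂ}, (∀ x ∈ X, ∀ x' ∈ X, x ≠ x' → 1 ≤ ‖x - x'‖) →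
      (∀ y ∈ Y, ∀ y' ∈ Y, y ≠ y' → 1 ≤ ‖y - y'‖) → ∀ {p p' : ℤ × ℤ},
      (∀ x ∈ X, InBox D p x) → (∀ y ∈ Y, InBox D p' y) → 1 < |p.1 - p'.1| →
      |p.1 - p'.1| ≤ 39 → |p.2 - p'.2| ≤ 39 → ∀ f g : ℂ → ℝ,
      ‖∑ x ∈ X, ∑ y ∈ Y, e (θ * (‖x - y‖ + f x + g y))‖ ≤ Bd (X.card * Y.card) D θ δ τ := by
    intro X Y hX hY p p' hXp hYp h h1 h2 f g
    rcases lt_or_ge p.1 p'.1 with hlt | hge
    · have h3 : p.1 + 2 ≤ p'.1 := by
        rw [abs_of_neg (by omega)] at h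
        omega
      have h4 := core1 hD hθ hδ hδ1 hτ hY hX hYp hXp h3 (by rwa [abs_sub_comm])
        (by rwa [abs_sub_comm]) g f
      rw [Finset.sum_comm, mul_comm] at h4
      have h5 : ∀ x y : ℂ, ‖y - x‖ + g y + f x = ‖x - y‖ + f x + g y := by
        intro x y
        rw [norm_sub_rev]
        ring
      simp only [h5] at h4
      exact h4
    · have h3 : p'.1 + 2 ≤ p.1 := by
        rw [abs_of_nonneg (by omega)] at h
        omega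
      exact core1 hD hθ hδ hδ1 hτ hX hY hXp hYp h3 h1 h2 f g
  rw [Adj, not_and_or, not_le, not_le] at h
  rcases h with h | h
  · exact key hX hY hXp hYp h h1 h2 f g
  · have hsep : ∀ X : Finset ℂ, (∀ x ∈ X, ∀ x' ∈ X, x ≠ x' → 1 ≤ ‖x - x'‖) →
        ∀ x ∈ X.image sw, ∀ x' ∈ X.image sw, x ≠ x' → 1 ≤ ‖x - x'‖ := by
      intro X hX x hx x' hx' hne
      obtain ⟨z, hz, rfl⟩ := Finset.mem_image.1 hx
      obtain ⟨w, hw, rfl⟩ := Finset.mem_image.1 hx'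
      rw [sw_norm]
      exact hX z hz w hw fun h => hne (by rw [h])
    have hbox : ∀ (X : Finset ℂ) (p : ℤ × ℤ), (∀ x ∈ X, InBox D p x) →
        ∀ x ∈ X.image sw, InBox D p.swap x := by
      intro X p hXp x hx
      obtain ⟨z, hz, rfl⟩ := Finset.mem_image.1 hx
      obtain ⟨h1, h2, h3, h4⟩ := hXp z hz
      exact ⟨h3, h4, h1, h2⟩
    have h3 := key (hsep X hX) (hsep Y hY) (hbox X p hXp) (hbox Y p' hYp) h h2 h1
      (fun z => f (sw z)) (fun z => g (sw z))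
    rw [Finset.sum_image (fun a _ b _ h => sw_inj h), Finset.card_image_of_injective _ sw_inj,
      Finset.card_image_of_injective _ sw_inj] at h3
    have h4 : ∀ x : ℂ, ∑ y ∈ Y.image sw, e (θ * (‖sw x - y‖ + f (sw (sw x)) + g (sw y)))
        = ∑ y ∈ Y, e (θ * (‖x - y‖ + f x + g y)) := by
      intro x
      rw [Finset.sum_image (fun a _ b _ h => sw_inj h)]
      refine Finset.sum_congr rfl fun y _ => ?_
      rw [sw_norm]
      rfl
    simp only [h4] at h3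
    exact h3

/-- the distance of points of cells that are not adjacent -/
lemma dist_lower {D : ℝ} (hD : 0 < D) {p p' : ℤ × ℤ} {x y : ℂ} (hx : InBox D p x)
    (hy : InBox D p' y) (h : ¬ Adj p p') : D ≤ ‖x - y‖ := by
  rw [Adj, not_and_or, not_le, not_le] at h
  obtain ⟨a1, a2, a3, a4⟩ := hx
  obtain ⟨b1, b2, b3, b4⟩ := hy
  have key : ∀ (i j : ℤ) (u v : ℝ), 1 < |i - j| → i * D ≤ u → u ≤ (i + 1) * D → j * D ≤ v →
      v ≤ (j + 1) * D → D ≤ |u - v| := by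
    intro i j u v h h1 h2 h3 h4
    rcases lt_or_ge i j with hlt | hge
    · have h5 : i + 2 ≤ j := by
        rw [abs_of_neg (by omega)] at h
        omega
      have h6 : (i : ℝ) + 2 ≤ j := by exact_mod_cast h5
      have h7 : ((i : ℝ) + 2) * D ≤ j * D := by gcongr
      rw [abs_sub_comm]
      refine le_trans ?_ (le_abs_self _)
      linarith
    · have h5 : j + 2 ≤ i := by
        rw [abs_of_nonneg (by omega)] at h
        omega
      have h6 : (j : ℝ) + 2 ≤ i := by exact_mod_cast h5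
      have h7 : ((j : ℝ) + 2) * D ≤ i * D := by gcongr
      refine le_trans ?_ (le_abs_self _)
      linarith
  rcases h with h | h
  · exact (key _ _ _ _ h a1 a2 b1 b2).trans (Complex.abs_re_le_norm (x - y))
  · exact (key _ _ _ _ h a3 a4 b3 b4).trans (Complex.abs_im_le_norm (x - y))

end Pool.Agent.W5h28.PD
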