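import Pool.Agent.W5h28.PD.Osc

set_option autoImplicit false

/-! Differences of the distances to two points. -/

namespace Pool.Agent.W5h28.PD

open Set MeasureTheory intervalIntegral
open Pool.Agent.H469R2.NK (e norm_e e_add)

/-- the distance -/
noncomputable def Rd (s t p q : ℝ) : ℝ := Real.sqrt ((s - p) ^ 2 + (t - q) ^ 2)

lemma Rd_sq (s t p q : ℝ) : Rd s t p q ^ 2 = (s - p) ^ 2 + (t - q) ^ 2 :=
  Real.sq_sqrt (by positivity)

lemma Rd_nonneg (s t p q : ℝ) : 0 ≤ Rd s t p q := Real.sqrt_nonneg _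

lemma Rd_norm (s t p q : ℝ) : Rd s t p q = ‖(⟨s - p, t - q⟩ : ℂ)‖ := by
  rw [Complex.norm_def, Complex.normSq_mk, Rd]
  congr 1
  ring

lemma Rd_lip (s t p q s' t' p' q' : ℝ) :
    |Rd s t p q - Rd s' t' p' q'| ≤ |(s - p) - (s' - p')| + |(t - q) - (t' - q')| := by
  rw [Rd_norm, Rd_norm]
  refine (abs_norm_sub_norm_le _ _).trans ?_
  have h : (⟨s - p, t - q⟩ : ℂ) - ⟨s' - p', t' - q'⟩
      = (((s - p) - (s' - p') : ℝ) : ℂ) + (((t - q) - (t' - q') : ℝ) : ℂ) * Complex.I := by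
    apply Complex.ext <;> simp
  rw [h]
  refine (norm_add_le _ _).trans ?_
  rw [norm_mul, Complex.norm_I, mul_one, Complex.norm_real, Complex.norm_real, Real.norm_eq_abs,
    Real.norm_eq_abs]

lemma le_Rd (s t p q : ℝ) : s - p ≤ Rd s t p q := by
  apply Real.le_sqrt_of_sq_le
  nlinarith [sq_nonneg (t - q)]

lemma abs_le_Rd (s t p q : ℝ) : |t - q| ≤ Rd s t p q := by
  apply Real.abs_le_sqrt
  nlinarith [sq_nonneg (s - p)]

lemma Rd_le (s t p q K D : ℝ) (h1 : |s - p| ≤ K * D) (h2 : |t - q| ≤ K * D) :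
    Rd s t p q ≤ 2 * (K * D) := by
  have h0 : 0 ≤ K * D := (abs_nonneg _).trans h1
  apply Real.sqrt_le_iff.2
  refine ⟨by linarith, ?_⟩
  have h3 : (s - p) ^ 2 ≤ (K * D) ^ 2 := by
    rw [← sq_abs]
    exact pow_le_pow_left₀ (abs_nonneg _) h1 2
  have h4 : (t - q) ^ 2 ≤ (K * D) ^ 2 := by
    rw [← sq_abs]
    exact pow_le_pow_left₀ (abs_nonneg _) h2 2
  nlinarith [sq_nonneg (K * D)]

/-- first derivative of the distance -/
lemma hasDerivAt_Rd (s p q t : ℝ) (h : 0 < s - p) :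
    HasDerivAt (fun t => Rd s t p q) ((t - q) / Rd s t p q) t := by
  unfold Rd
  have h0 : (s - p) ^ 2 + (t - q) ^ 2 ≠ 0 := by positivity
  have h1 : HasDerivAt (fun t : ℝ => (s - p) ^ 2 + (t - q) ^ 2) (2 * (t - q)) t := by
    have h2 : HasDerivAt (fun t : ℝ => t - q) 1 t := (hasDerivAt_id t).sub_const q
    have h3 : HasDerivAt (fun t : ℝ => (t - q) ^ 2) (2 * (t - q)) t :=
      (h2.fun_pow 2).congr_deriv (by norm_num)
    exact h3.const_add _
  refine (h1.sqrt h0).congr_deriv ?_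
  field_simp

/-- second derivative of the distance -/
lemma hasDerivAt_Rd' (s p q t : ℝ) (h : 0 < s - p) :
    HasDerivAt (fun t => (t - q) / Rd s t p q) ((s - p) ^ 2 / Rd s t p q ^ 3) t := by
  have hR : 0 < Rd s t p q := lt_of_lt_of_le h (le_Rd s t p q)
  have h1 : HasDerivAt (fun t : ℝ => t - q) 1 t := (hasDerivAt_id t).sub_const q
  refine (h1.fun_div (hasDerivAt_Rd s p q t h) hR.ne').congr_deriv ?_
  have h3 := Rd_sq s t p q
  have h4 : (s - p) ^ 2 = Rd s t p q ^ 2 - (t - q) ^ 2 := by linarith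
  rw [h4]
  field_simp

/-- the phase -/
noncomputable def ph (s p q p' q' t : ℝ) : ℝ := Rd s t p q - Rd s t p' q'

noncomputable def ph' (s p q p' q' t : ℝ) : ℝ :=
  (t - q) / Rd s t p q - (t - q') / Rd s t p' q'

noncomputable def ph'' (s p q p' q' t : ℝ) : ℝ :=
  (s - p) ^ 2 / Rd s t p q ^ 3 - (s - p') ^ 2 / Rd s t p' q' ^ 3

lemma ph_deriv {s p q p' q' : ℝ} (h : 0 < s - p) (h' : 0 < s - p') (t : ℝ) :
    HasDerivAt (ph s p q p' q') (ph' s p q p' q' t) t :=
  (hasDerivAt_Rd s p q t h).sub (hasDerivAt_Rd s p' q' t h')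

lemma ph_deriv' {s p q p' q' : ℝ} (h : 0 < s - p) (h' : 0 < s - p') (t : ℝ) :
    HasDerivAt (ph' s p q p' q') (ph'' s p q p' q' t) t :=
  (hasDerivAt_Rd' s p q t h).sub (hasDerivAt_Rd' s p' q' t h')

lemma Rd_continuous (s p q : ℝ) : Continuous fun t => Rd s t p q := by
  unfold Rd
  fun_prop

lemma ph''_continuous {s p q p' q' : ℝ} (h : 0 < s - p) (h' : 0 < s - p') :
    Continuous (ph'' s p q p' q') := by
  unfold ph''
  refine Continuous.sub ?_ ?_
  · refine continuous_const.div ((Rd_continuous s p q).pow 3) fun t => ?_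
    exact pow_ne_zero _ (lt_of_lt_of_le h (le_Rd s t p q)).ne'
  · refine continuous_const.div ((Rd_continuous s p' q').pow 3) fun t => ?_
    exact pow_ne_zero _ (lt_of_lt_of_le h' (le_Rd s t p' q')).ne'

/-- the horizontal slope grows with the horizontal coordinate -/
lemma slope_lower {s t p q q' K D : ℝ} (hD : 0 < D) (hK : 1 ≤ K) (h1 : D / 2 ≤ s - p)
    (h2 : s - p ≤ K * D) (h3 : |t - q| ≤ K * D) (h4 : |t - q'| ≤ K * D) (hq : q' ≤ q) :
    (q - q') / (12 * K ^ 3 * D) ≤ (t - q') / Rd s t p q' - (t - q) / Rd s t p q := by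
  -- as a function of `q`
  have hpos : 0 < s - p := by linarith
  set F : ℝ → ℝ := fun u => (u - 0) / Rd s u p 0 with hF
  have hFt : ∀ r : ℝ, (t - r) / Rd s t p r = F (t - r) := by
    intro r
    simp only [hF, sub_zero]
    congr 1
    unfold Rd
    rw [sub_zero]
  rw [hFt, hFt]
  have hd : ∀ u : ℝ, HasDerivAt F ((s - p) ^ 2 / Rd s u p 0 ^ 3) u := fun u =>
    hasDerivAt_Rd' s p 0 u hpos
  have hconv : Convex ℝ (Icc (t - q) (t - q')) := convex_Icc _ _
  have hmvt := hconv.mul_sub_le_image_sub_of_le_deriv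
    (f := F) (fun u _ => (hd u).continuousAt.continuousWithinAt)
    (fun u _ => (hd u).differentiableAt.differentiableWithinAt) (C := 1 / (12 * K ^ 3 * D)) (by
      intro u hu
      rw [interior_Icc] at hu
      rw [(hd u).deriv]
      have hu1 : |u| ≤ K * D := by
        rw [abs_le]
        have h5 := abs_le.1 h3
        have h6 := abs_le.1 h4
        exact ⟨by linarith [hu.1], by linarith [hu.2]⟩
      have hR0 : 0 < Rd s u p 0 := lt_of_lt_of_le hpos (le_Rd s u p 0)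
      have hsq : Rd s u p 0 ^ 2 ≤ 2 * (K * D) ^ 2 := by
        rw [Rd_sq, sub_zero]
        have h5 : (s - p) ^ 2 ≤ (K * D) ^ 2 := pow_le_pow_left₀ hpos.le h2 2
        have h6 : u ^ 2 ≤ (K * D) ^ 2 := by
          rw [← sq_abs]
          exact pow_le_pow_left₀ (abs_nonneg _) hu1 2
        linarith
      have hKD : 0 < K * D := by positivity
      have hR1 : Rd s u p 0 ≤ 3 / 2 * (K * D) := by
        apply le_of_sq_le_sq _ (by positivity)
        nlinarith
      have hR3 : Rd s u p 0 ^ 3 ≤ 3 * (K * D) ^ 3 := by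
        calc Rd s u p 0 ^ 3 = Rd s u p 0 ^ 2 * Rd s u p 0 := by ring
          _ ≤ 2 * (K * D) ^ 2 * (3 / 2 * (K * D)) := by gcongr
          _ = _ := by ring
      rw [div_le_div_iff₀ (by positivity) (by positivity)]
      have h7 : (D / 2) ^ 2 ≤ (s - p) ^ 2 := pow_le_pow_left₀ (by positivity) h1 2
      calc 1 * Rd s u p 0 ^ 3 ≤ 3 * (K * D) ^ 3 := by rw [one_mul]; exact hR3
        _ = (D / 2) ^ 2 * (12 * K ^ 3 * D) := by ring
        _ ≤ (s - p) ^ 2 * (12 * K ^ 3 * D) := by gcongr)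
    (t - q) ⟨le_rfl, by linarith⟩ (t - q') ⟨by linarith, le_rfl⟩ (by linarith)
  refine le_trans (le_of_eq ?_) hmvt
  ring

/-- the slope changes little with the height -/
lemma slope_height {s t p p' q D : ℝ} (hD : 0 < D) (h1 : D / 2 ≤ s - p) (h1' : D / 2 ≤ s - p')
    (hpp : |p - p'| ≤ 1 / 2) :
    |(t - q) / Rd s t p q - (t - q) / Rd s t p' q| ≤ 1 / D := by
  have hR : D / 2 ≤ Rd s t p q := h1.trans (le_Rd s t p q)
  have hR' : D / 2 ≤ Rd s t p' q := h1'.trans (le_Rd s t p' q)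
  have hR0 : 0 < Rd s t p q := by linarith
  have hR0' : 0 < Rd s t p' q := by linarith
  have h2 : (t - q) / Rd s t p q - (t - q) / Rd s t p' q
      = (t - q) * (Rd s t p' q - Rd s t p q) / (Rd s t p q * Rd s t p' q) := by
    field_simp
  rw [h2, abs_div, abs_mul, abs_of_pos (mul_pos hR0 hR0'), div_le_div_iff₀ (by positivity) hD]
  have h3 := Rd_lip s t p' q s t p q
  have h4 : |(s - p') - (s - p)| + |(t - q) - (t - q)| ≤ 1 / 2 := by
    rw [sub_self, abs_zero, add_zero]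
    have : (s - p') - (s - p) = p - p' := by ring
    rw [this]
    exact hpp
  have h5 := h3.trans h4
  have h6 := abs_le_Rd s t p' q
  calc |t - q| * |Rd s t p' q - Rd s t p q| * D ≤ Rd s t p' q * (1 / 2) * D := by gcongr
    _ = Rd s t p' q * (D / 2) := by ring
    _ ≤ Rd s t p' q * Rd s t p q := by gcongr
    _ = 1 * (Rd s t p q * Rd s t p' q) := by ring

lemma ph'_lower {s t p q p' q' K D : ℝ} (hD : 0 < D) (hK : 1 ≤ K) (h1 : D / 2 ≤ s - p)
    (h2 : s - p ≤ K * D) (h1' : D / 2 ≤ s - p') (h2' : s - p' ≤ K * D)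
    (h3 : |t - q| ≤ K * D) (h4 : |t - q'| ≤ K * D) (hpp : |p - p'| ≤ 1 / 2)
    (hr : 24 * K ^ 3 ≤ |q - q'|) :
    |q - q'| / (24 * K ^ 3 * D) ≤ |ph' s p q p' q' t| := by
  have hK3 : 0 < K ^ 3 := by positivity
  -- it is enough to treat `q' ≤ q`
  have key : ∀ p q p' q' : ℝ, D / 2 ≤ s - p → s - p ≤ K * D → D / 2 ≤ s - p' →
      |t - q| ≤ K * D → |t - q'| ≤ K * D → |p - p'| ≤ 1 / 2 → 24 * K ^ 3 ≤ q - q' →
      (q - q') / (24 * K ^ 3 * D) ≤ |ph' s p q p' q' t| := by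
    intro p q p' q' h1 h2 h1' h3 h4 hpp hr
    have hqq : q' ≤ q := by nlinarith
    have h5 := slope_lower hD hK h1 h2 h3 h4 hqq
    have h6 := slope_height (t := t) (q := q') hD h1 h1' hpp
    have h7 : ph' s p q p' q' t = -(((t - q') / Rd s t p q' - (t - q) / Rd s t p q)
        - ((t - q') / Rd s t p q' - (t - q') / Rd s t p' q')) := by
      unfold ph'
      ring
    rw [h7, abs_neg]
    have h8 := abs_le.1 h6
    refine le_trans ?_ (le_abs_self _)
    have h9 : 1 / D ≤ (q - q') / (24 * K ^ 3 * D) := by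
      rw [div_le_div_iff₀ hD (by positivity)]
      nlinarith
    have h10 : (q - q') / (12 * K ^ 3 * D) = 2 * ((q - q') / (24 * K ^ 3 * D)) := by
      field_simp
      ring
    linarith [h8.2]
  rcases le_total q' q with h | h
  · rw [abs_of_nonneg (by linarith : (0 : ℝ) ≤ q - q')] at hr ⊢
    exact key p q p' q' h1 h2 h1' h3 h4 hpp hr
  · rw [abs_of_nonpos (by linarith : q - q' ≤ (0 : ℝ)), neg_sub] at hr ⊢
    have h5 := key p' q' p q h1' h2' h1 h4 h3 (by rwa [abs_sub_comm]) hr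
    have h6 : ph' s p' q' p q t = - ph' s p q p' q' t := by
      unfold ph'
      ring
    rwa [h6, abs_neg] at h5

lemma ph''_upper {s t p q p' q' K D : ℝ} (hD : 1 ≤ D) (hK : 1 ≤ K) (h1 : D / 2 ≤ s - p)
    (h2 : s - p ≤ K * D) (h1' : D / 2 ≤ s - p') (h2' : s - p' ≤ K * D)
    (h3 : |t - q| ≤ K * D) (h4 : |t - q'| ≤ K * D) (hpp : |p - p'| ≤ 1 / 2)
    (hr : 1 ≤ |q - q'|) :
    |ph'' s p q p' q' t| ≤ 200 * K * |q - q'| / D ^ 2 := by
  have hD0 : 0 < D := by linarith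
  set R := Rd s t p q with hRdef
  set R' := Rd s t p' q' with hR'def
  have hR : D / 2 ≤ R := h1.trans (le_Rd s t p q)
  have hR' : D / 2 ≤ R' := h1'.trans (le_Rd s t p' q')
  have hR0 : 0 < R := by linarith
  have hR0' : 0 < R' := by linarith
  have hRu : R ≤ 2 * (K * D) := Rd_le s t p q K D (by rw [abs_of_nonneg (by linarith)]; exact h2) h3
  have hRu' : R' ≤ 2 * (K * D) :=
    Rd_le s t p' q' K D (by rw [abs_of_nonneg (by linarith)]; exact h2') h4
  set r := |q - q'| with hrdef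
  have hRR : |R - R'| ≤ 2 * r := by
    have h5 := Rd_lip s t p q s t p' q'
    have h6 : |(s - p) - (s - p')| ≤ 1 / 2 := by
      have : (s - p) - (s - p') = -(p - p') := by ring
      rw [this, abs_neg]
      exact hpp
    have h7 : |(t - q) - (t - q')| = r := by
      have : (t - q) - (t - q') = -(q - q') := by ring
      rw [this, abs_neg]
    rw [h7] at h5
    linarith
  have hKD : 0 < K * D := by positivity
  -- the two parts
  have hA : |(s - p) ^ 2 / R ^ 3 - (s - p') ^ 2 / R ^ 3| ≤ 8 * K * r / D ^ 2 := by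
    rw [← sub_div, abs_div, abs_of_pos (by positivity : (0 : ℝ) < R ^ 3),
      div_le_div_iff₀ (by positivity) (by positivity)]
    have h5 : (s - p) ^ 2 - (s - p') ^ 2 = (p' - p) * ((s - p) + (s - p')) := by ring
    have h6 : |(s - p) ^ 2 - (s - p') ^ 2| ≤ 1 / 2 * (2 * (K * D)) := by
      rw [h5, abs_mul]
      have h7 : |p' - p| ≤ 1 / 2 := by rwa [abs_sub_comm]
      have h8 : |(s - p) + (s - p')| ≤ 2 * (K * D) := by
        rw [abs_of_nonneg (by linarith)]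
        linarith
      gcongr
    have h9 : (D / 2) ^ 3 ≤ R ^ 3 := pow_le_pow_left₀ (by positivity) hR 3
    calc |(s - p) ^ 2 - (s - p') ^ 2| * D ^ 2 ≤ 1 / 2 * (2 * (K * D)) * D ^ 2 := by gcongr
      _ = 8 * K * 1 * (D / 2) ^ 3 := by ring
      _ ≤ 8 * K * r * R ^ 3 := by gcongr
  have hB : |(s - p') ^ 2 / R ^ 3 - (s - p') ^ 2 / R' ^ 3| ≤ 192 * K * r / D ^ 2 := by
    have h5 : (s - p') ^ 2 / R ^ 3 - (s - p') ^ 2 / R' ^ 3
        = (R' - R) * ((s - p') ^ 2 / (R * R' ^ 3) + (s - p') ^ 2 / (R ^ 2 * R' ^ 2)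
          + (s - p') ^ 2 / (R ^ 3 * R')) := by
      field_simp
      ring
    have hh : (s - p') ^ 2 ≤ R' ^ 2 := by
      rw [hR'def, Rd_sq]
      nlinarith [sq_nonneg (t - q')]
    have hb1 : (s - p') ^ 2 / (R * R' ^ 3) ≤ 4 / D ^ 2 := by
      rw [div_le_div_iff₀ (by positivity) (by positivity)]
      calc (s - p') ^ 2 * D ^ 2 ≤ R' ^ 2 * D ^ 2 := by gcongr
        _ = 4 * ((D / 2) * R' ^ 2 * (D / 2)) := by ring
        _ ≤ 4 * (R * R' ^ 2 * R') := by gcongr
        _ = 4 * (R * R' ^ 3) := by ring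
    have hb2 : (s - p') ^ 2 / (R ^ 2 * R' ^ 2) ≤ 4 / D ^ 2 := by
      rw [div_le_div_iff₀ (by positivity) (by positivity)]
      calc (s - p') ^ 2 * D ^ 2 ≤ R' ^ 2 * D ^ 2 := by gcongr
        _ = 4 * ((D / 2) ^ 2 * R' ^ 2) := by ring
        _ ≤ 4 * (R ^ 2 * R' ^ 2) := by gcongr
    have hb3 : (s - p') ^ 2 / (R ^ 3 * R') ≤ 16 * K / D ^ 2 := by
      rw [div_le_div_iff₀ (by positivity) (by positivity)]
      calc (s - p') ^ 2 * D ^ 2 ≤ R' ^ 2 * D ^ 2 := by gcongr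
        _ = R' * R' * D ^ 2 := by ring
        _ ≤ 2 * (K * D) * R' * D ^ 2 := by gcongr
        _ = 16 * K * ((D / 2) ^ 3 * R') := by ring
        _ ≤ 16 * K * (R ^ 3 * R') := by gcongr
    have h0 : 0 ≤ (s - p') ^ 2 / (R * R' ^ 3) + (s - p') ^ 2 / (R ^ 2 * R' ^ 2)
          + (s - p') ^ 2 / (R ^ 3 * R') := by positivity
    rw [h5, abs_mul, abs_of_nonneg h0]
    have h6 : |R' - R| ≤ 2 * r := by rwa [abs_sub_comm]
    calc |R' - R| * ((s - p') ^ 2 / (R * R' ^ 3) + (s - p') ^ 2 / (R ^ 2 * R' ^ 2)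
          + (s - p') ^ 2 / (R ^ 3 * R')) ≤ 2 * r * (4 / D ^ 2 + 4 / D ^ 2 + 16 * K / D ^ 2) := by
          gcongr
      _ = (16 + 32 * K) * r / D ^ 2 := by ring
      _ ≤ 192 * K * r / D ^ 2 := by
          gcongr
          linarith
  have hsplit : ph'' s p q p' q' t = ((s - p) ^ 2 / R ^ 3 - (s - p') ^ 2 / R ^ 3)
      + ((s - p') ^ 2 / R ^ 3 - (s - p') ^ 2 / R' ^ 3) := by
    unfold ph''
    ring
  rw [hsplit]
  refine (abs_add_le _ _).trans ?_
  calc _ ≤ 8 * K * r / D ^ 2 + 192 * K * r / D ^ 2 := by gcongr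
    _ = 200 * K * r / D ^ 2 := by ring

/-- the oscillatory integral over a horizontal segment -/
theorem seg_bound {s p q p' q' K D b θ : ℝ} (hD : 1 ≤ D) (hK : 1 ≤ K) (hθ : 0 < θ)
    (h1 : D / 2 ≤ s - p)
    (h2 : s - p ≤ K * D) (h1' : D / 2 ≤ s - p') (h2' : s - p' ≤ K * D)
    (h3 : ∀ t ∈ Icc b (b + 2 * D), |t - q| ≤ K * D) (h4 : ∀ t ∈ Icc b (b + 2 * D), |t - q'| ≤ K * D)
    (hpp : |p - p'| ≤ 1 / 2) (hr : 24 * K ^ 3 ≤ |q - q'|) :
    ‖∫ t in b..(b + 2 * D), e (θ * ph s p q p' q' t)‖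
      ≤ 240000 * K ^ 7 * D / (θ * |q - q'|) := by
  have hD0 : 0 < D := by linarith
  have hK1 : 1 ≤ K ^ 3 := one_le_pow₀ hK
  have hr1 : 1 ≤ |q - q'| := by linarith
  set r := |q - q'| with hrdef
  have hr0 : 0 < r := by linarith
  have h := osc (a := b) (b := b + 2 * D) (θ := θ) (lam := r / (24 * K ^ 3 * D))
    (Lam := 200 * K * r / D ^ 2) (by linarith) hθ (by positivity)
    (φ := ph s p q p' q') (φ' := ph' s p q p' q') (φ'' := ph'' s p q p' q')
    (fun t _ => ph_deriv (by linarith) (by linarith) t)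
    (fun t _ => ph_deriv' (by linarith) (by linarith) t)
    (ph''_continuous (by linarith) (by linarith)).continuousOn
    (fun t ht => ph'_lower hD0 hK h1 h2 h1' h2' (h3 t ht) (h4 t ht) hpp hr)
    (fun t ht => ph''_upper hD hK h1 h2 h1' h2' (h3 t ht) (h4 t ht) hpp hr1)
  refine h.trans ?_
  have hpi : 3 < Real.pi := Real.pi_gt_three
  have e1 : 2 / (r / (24 * K ^ 3 * D)) = 48 * K ^ 3 * D / r := by
    field_simp
    ring
  have e2 : (b + 2 * D - b) * (200 * K * r / D ^ 2) / (r / (24 * K ^ 3 * D)) ^ 2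
      = 230400 * K ^ 7 * D / r := by
    field_simp
    ring
  rw [e1, e2]
  have hK7 : K ^ 3 ≤ K ^ 7 := pow_le_pow_right₀ hK (by norm_num)
  rw [← add_div, div_div, div_le_div_iff₀ (by positivity) (by positivity)]
  have h5 : 48 * K ^ 3 * D + 230400 * K ^ 7 * D ≤ 240000 * K ^ 7 * D := by
    have h6 : K ^ 3 * D ≤ K ^ 7 * D := by gcongr
    have h7 : 0 ≤ K ^ 7 * D := by positivity
    linarith
  calc (48 * K ^ 3 * D + 230400 * K ^ 7 * D) * (θ * r) ≤ 240000 * K ^ 7 * D * (θ * r) := by gcongr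
    _ = 240000 * K ^ 7 * D * (r * (1 * θ)) := by ring
    _ ≤ 240000 * K ^ 7 * D * (r * (2 * Real.pi * θ)) := by
        gcongr
        linarith

end Pool.Agent.W5h28.PD
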