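import Pool.Agent.W5h28.PD.Core
import Pool.Agent.TH915.PW.Scaled

set_option autoImplicit false

/-! Distances of two separated sets of the plane and prime gaps of record length. -/

namespace Pool.Agent.W5h28.PD

open Finset Filter
open Pool.Agent.H469R2.NK (e norm_e e_add conj_e)
open Pool.Agent.W147.PS (ff ff_compare ev_pow)

/-- the whole set is in four cells -/
lemma top_cells {X Y : Finset ℂ} {Z : ℝ} {n : ℕ} (hZ : Z < 20 ^ n) (hX : ∀ x ∈ X, ‖x‖ ≤ Z)
    (hY : ∀ y ∈ Y, ‖y‖ ≤ Z) : ∃ P P' : ℤ × ℤ, Adj P P' ∧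
      (X.card : ℝ) * Y.card / 16 ≤ ((inCell X n P).card : ℝ) * (inCell Y n P').card := by
  classical
  set T : Finset (ℤ × ℤ) := Finset.Icc (-1) 0 ×ˢ Finset.Icc (-1) 0 with hT
  have hTc : T.card = 4 := by
    rw [hT]
    rfl
  have hL : (0 : ℝ) < 20 ^ n := by positivity
  have key : ∀ r : ℝ, |r| ≤ Z → -1 ≤ ⌊r / 20 ^ n⌋ ∧ ⌊r / 20 ^ n⌋ ≤ 0 := by
    intro r hr
    rw [abs_le] at hr
    constructor
    · rw [Int.le_floor, le_div_iff₀ hL]
      push_cast
      linarith [hr.1]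
    · have h1 : ⌊r / 20 ^ n⌋ < 1 := by
        rw [Int.floor_lt, div_lt_iff₀ hL]
        push_cast
        linarith [hr.2]
      omega
  have hmaps : ∀ S : Finset ℂ, (∀ x ∈ S, ‖x‖ ≤ Z) → ∀ x ∈ S, cell n x ∈ T := by
    intro S hS x hx
    have h1 := key x.re ((Complex.abs_re_le_norm x).trans (hS x hx))
    have h2 := key x.im ((Complex.abs_im_le_norm x).trans (hS x hx))
    rw [hT, mem_product, Finset.mem_Icc, Finset.mem_Icc]
    exact ⟨h1, h2⟩
  have h1 : (X.card : ℝ) * Y.card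
      = ∑ P ∈ T, ∑ P' ∈ T, ((inCell X n P).card : ℝ) * (inCell Y n P').card := by
    rw [card_eq_sum_card_fiberwise (f := cell n) (t := T) (hmaps X hX),
      card_eq_sum_card_fiberwise (f := cell n) (t := T) (hmaps Y hY)]
    push_cast
    rw [sum_mul_sum]
    rfl
  by_contra hcon
  push Not at hcon
  have h2 : ∑ P ∈ T, ∑ P' ∈ T, ((inCell X n P).card : ℝ) * (inCell Y n P').card
      < ∑ P ∈ T, ∑ P' ∈ T, (X.card : ℝ) * Y.card / 16 := by
    have hne : T.Nonempty := by rw [← card_pos, hTc]; norm_num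
    refine sum_lt_sum_of_nonempty hne fun P hP => sum_lt_sum_of_nonempty hne fun P' hP' => ?_
    refine hcon P P' ?_
    rw [hT, mem_product, Finset.mem_Icc, Finset.mem_Icc] at hP hP'
    exact ⟨by rw [abs_le]; omega, by rw [abs_le]; omega⟩
  rw [← h1] at h2
  simp only [sum_const, hTc, nsmul_eq_mul] at h2
  push_cast at h2
  linarith

set_option maxHeartbeats 1000000 in
theorem main (ε : ℝ) (hε : 0 < ε) (hε1 : ε ≤ 1) : ∃ κ : ℝ, 0 < κ ∧ ∀ᶠ Z : ℝ in atTop,
    ∀ X Y : Finset ℂ, (∀ x ∈ X, ∀ x' ∈ X, x ≠ x' → 1 ≤ ‖x - x'‖) →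
    (∀ y ∈ Y, ∀ y' ∈ Y, y ≠ y' → 1 ≤ ‖y - y'‖) → (∀ x ∈ X, ‖x‖ ≤ Z) → (∀ y ∈ Y, ‖y‖ ≤ Z) →
    Z ^ (3 + ε) ≤ (X.card : ℝ) * Y.card → ∀ f g : ℂ → ℝ,
    (∀ x ∈ X, ∀ y ∈ Y, Z ^ (ε / 2) ≤ ‖x - y‖ → Z ^ (ε / 2) ≤ ‖x - y‖ + f x + g y) →
    ∃ x ∈ X, ∃ y ∈ Y, Z ^ (ε / 2) ≤ ‖x - y‖ ∧
      ∀ q : ℕ, q.Prime → κ * ff Z < |(q : ℝ) - (‖x - y‖ + f x + g y)| := by
  classical
  set η : ℝ := ε / 100 with hη
  have hη0 : 0 < η := by positivity
  obtain ⟨κ, hκ, hc⟩ := Pool.Agent.TH915.PW.crit_scaled η hη0 (by rw [hη]; linarith)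
  refine ⟨κ, hκ, ?_⟩
  filter_upwards [hc, eventually_ge_atTop (2 : ℝ), ev_pow 0 ε 2560000 hε,
    ev_pow (ε / 2) ε 81920000 (by linarith), ev_pow (-(5 * η)) (-(4 * η)) 18 (by linarith),
    ev_pow (25 * η) (96 * η) (12000000 * 50 ^ 7 * 80 * 128000) (by nlinarith),
    ev_pow (-(9 * η)) 0 4 (by linarith),
    (isLittleO_log_rpow_atTop hη0).bound (show (0 : ℝ) < 1 / 8 by norm_num),
    (tendsto_rpow_atTop hη0).eventually_ge_atTop 12] with Z hcrit hZ2 hZA hZD hZτ hZm hZδ hZlog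
      hZη
  intro X Y hX hY hXZ hYZ hcard f g hfg
  have hZ0 : 0 < Z := by linarith
  have hZ1 : 1 ≤ Z := by linarith
  rw [Real.rpow_zero, mul_one] at hZA
  rw [Real.rpow_zero] at hZδ
  -- the top level
  obtain ⟨n, hn1, hn2⟩ := exists_nat_pow_near hZ1 (show (1 : ℝ) < 20 by norm_num)
  obtain ⟨P, P', hadj, hPP⟩ := top_cells hn2 hXZ hYZ
  set A : ℝ := Z ^ ε / 128000 with hA
  have hA16 : 16 < A := by
    rw [hA, lt_div_iff₀ (by norm_num)]
    linarith
  have hZ3 : Z ^ (3 + ε) = Z ^ 3 * Z ^ ε := by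
    rw [Real.rpow_add hZ0]
    norm_num
  have hAle : A * ((20 : ℝ) ^ (n + 1)) ^ 3 ≤
      ((inCell X (n + 1) P).card : ℝ) * (inCell Y (n + 1) P').card := by
    refine le_trans ?_ hPP
    rw [le_div_iff₀ (by norm_num)]
    refine le_trans ?_ hcard
    rw [hZ3, hA]
    have h1 : ((20 : ℝ) ^ (n + 1)) ^ 3 ≤ 8000 * Z ^ 3 := by
      have h2 : ((20 : ℝ) ^ (n + 1)) ≤ 20 * Z := by
        rw [pow_succ]
        linarith
      calc ((20 : ℝ) ^ (n + 1)) ^ 3 ≤ (20 * Z) ^ 3 := by gcongr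
        _ = 8000 * Z ^ 3 := by ring
    have h3 : 0 ≤ Z ^ ε := by positivity
    calc Z ^ ε / 128000 * ((20 : ℝ) ^ (n + 1)) ^ 3 * 16 ≤ Z ^ ε / 128000 * (8000 * Z ^ 3) * 16 := by
          gcongr
      _ = Z ^ 3 * Z ^ ε := by ring
  obtain ⟨m, p, p', hmn, hna, h39, h39', hN⟩ := box hX hY hA16 (n + 1) P P' hadj hAle
  set D : ℝ := 20 ^ m with hD
  have hD1 : 1 ≤ D := one_le_pow₀ (by norm_num)
  have hD0 : 0 < D := by linarith
  have hDZ : D ≤ Z := by
    refine le_trans ?_ hn1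
    exact pow_le_pow_right₀ (by norm_num) (by omega)
  set X' := inCell X m p with hX'
  set Y' := inCell Y m p' with hY'
  have hbX : ∀ x ∈ X', x ∈ X ∧ InBox D p x := fun x hx => inBox_of hx
  have hbY : ∀ y ∈ Y', y ∈ Y ∧ InBox D p' y := fun y hy => inBox_of hy
  set N : ℝ := (X'.card : ℝ) * Y'.card with hNdef
  have hN0 : 0 < N := lt_of_lt_of_le (by positivity) hN
  -- the scale `D` is large
  have hDbig : Z ^ (ε / 2) ≤ D := by
    have h1 := inCell_le hX m p
    have h2 := inCell_le hY m p'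
    have h3 : (X'.card : ℝ) ≤ 4 * D ^ 2 := by rw [hD]; exact_mod_cast h1
    have h4 : (Y'.card : ℝ) ≤ 4 * D ^ 2 := by rw [hD]; exact_mod_cast h2
    have h5 : N ≤ 4 * D ^ 2 * (4 * D ^ 2) := by
      rw [hNdef]
      gcongr
    have h6 : A / 40 * D ^ 3 ≤ 16 * D * D ^ 3 := by
      calc A / 40 * D ^ 3 ≤ N := hN
        _ ≤ _ := h5
        _ = 16 * D * D ^ 3 := by ring
    have h7 : A / 40 ≤ 16 * D := le_of_mul_le_mul_right h6 (by positivity)
    rw [hA] at h7
    linarith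
  have hdist : ∀ x ∈ X', ∀ y ∈ Y', Z ^ (ε / 2) ≤ ‖x - y‖ := by
    intro x hx y hy
    exact hDbig.trans (dist_lower hD0 (hbX x hx).2 (hbY y hy).2 hna)
  -- the criterion
  obtain ⟨i, hi, hi2⟩ := hcrit (ℂ × ℂ) (X' ×ˢ Y') (fun i => ‖i.1 - i.2‖ + f i.1 + g i.2) (by
      rw [← card_pos, card_product]
      have : (0 : ℝ) < ((X'.card * Y'.card : ℕ) : ℝ) := by push_cast; exact hN0
      exact_mod_cast this) (by
      intro i hi
      obtain ⟨h1, h2⟩ := mem_product.1 hi
      refine le_trans ?_ (hfg i.1 (hbX _ h1).1 i.2 (hbY _ h2).1 (hdist _ h1 _ h2))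
      apply Real.rpow_le_rpow_of_exponent_le hZ1
      rw [hη]
      linarith) (by
      intro q h hq hqZ hh hhZ
      set θ : ℝ := (h : ℝ) / q with hθ
      have hq0 : (0 : ℝ) < q := by exact_mod_cast hq
      have hh0 : (0 : ℝ) < h := by exact_mod_cast hh
      have hh1 : (1 : ℝ) ≤ h := by exact_mod_cast hh
      have hq1 : (1 : ℝ) ≤ q := by exact_mod_cast hq
      have hθ0 : 0 < θ := by positivity
      have hθu : θ ≤ Z ^ (4 * η) := by
        rw [hθ]
        exact (div_le_self hh0.le hq1).trans hhZ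
      have hθi : 1 / θ ≤ Z ^ η := by
        rw [hθ, one_div_div]
        exact (div_le_self hq0.le hh1).trans hqZ
      set τ : ℝ := Z ^ (-(5 * η)) with hτ
      set δ : ℝ := Z ^ (-(9 * η)) with hδ
      have hτ0 : 0 < τ := by positivity
      have hδ0 : 0 < δ := by positivity
      have hcore := core (D := D) (θ := θ) (δ := δ) (τ := τ) hD1 hθ0 hδ0 (by linarith) hτ0
        (X := X') (Y := Y') (fun x hx x' hx' => hX x (hbX x hx).1 x' (hbX x' hx').1)
        (fun y hy y' hy' => hY y (hbY y hy).1 y' (hbY y' hy').1)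
        (fun x hx => (hbX x hx).2) (fun y hy => (hbY y hy).2) hna h39 h39' f g
      rw [sum_product, card_product]
      refine hcore.trans ?_
      rw [Bd, ← hNdef]
      push_cast
      rw [← hNdef]
      have hpi : Real.pi ≤ 4 := Real.pi_le_four
      have hpi0 := Real.pi_pos
      -- first part
      have h1 : τ + 2 * Real.pi * θ * δ ≤ 1 / 2 * Z ^ (-(4 * η)) := by
        have h2 : θ * δ ≤ τ := by
          calc θ * δ ≤ Z ^ (4 * η) * Z ^ (-(9 * η)) := by gcongr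
            _ = τ := by
              rw [← Real.rpow_add hZ0, hτ]
              congr 1
              ring
        have h3 : 2 * Real.pi * θ * δ ≤ 8 * τ := by
          calc 2 * Real.pi * θ * δ = 2 * Real.pi * (θ * δ) := by ring
            _ ≤ 2 * 4 * τ := by gcongr
            _ = 8 * τ := by ring
        linarith
      -- second part
      have h2 : 6000000 * 50 ^ 7 * D ^ 3 * (1 + 1 / θ) * (1 + Real.log (2 * D + 3)) / (τ * δ ^ 2)
          ≤ 1 / 2 * (N * Z ^ (-(4 * η))) := by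
        have h3 : 1 + 1 / θ ≤ 2 * Z ^ η := by linarith
        have h4 : 1 + Real.log (2 * D + 3) ≤ Z ^ η := by
          have h5 : Real.log (2 * D + 3) ≤ Real.log (Z ^ 3 * 2) := by
            apply Real.log_le_log (by linarith)
            have h7 : Z * 4 ≤ Z ^ 3 := by nlinarith [sq_nonneg (Z - 2), mul_pos hZ0 hZ0]
            linarith
          have h6 : Real.log (Z ^ 3 * 2) = 3 * Real.log Z + Real.log 2 := by
            rw [Real.log_mul (by positivity) (by norm_num), Real.log_pow]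
            norm_num
          have h7 := Real.log_two_lt_d9
          rw [Real.norm_eq_abs, Real.norm_eq_abs, abs_of_nonneg (Real.log_nonneg hZ1),
            abs_of_nonneg (by positivity)] at hZlog
          linarith
        have h4' : 0 ≤ 1 + Real.log (2 * D + 3) := by
          have := Real.log_nonneg (by linarith : (1 : ℝ) ≤ 2 * D + 3)
          linarith
        have h5 : τ * δ ^ 2 = Z ^ (-(23 * η)) := by
          rw [hτ, hδ, ← Real.rpow_natCast, ← Real.rpow_mul hZ0.le, ← Real.rpow_add hZ0]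
          congr 1
          push_cast
          ring
        rw [h5, Real.rpow_neg hZ0.le (23 * η), div_inv_eq_mul]
        have h6 : D ^ 3 * Z ^ ε / 5120000 ≤ N := by
          refine le_trans (le_of_eq ?_) hN
          rw [hA]
          ring
        have e1 : Z ^ η * Z ^ η * Z ^ (23 * η) = Z ^ (25 * η) := by
          rw [← Real.rpow_add hZ0, ← Real.rpow_add hZ0]
          congr 1
          ring
        have e2 : Z ^ ε * Z ^ (-(4 * η)) = Z ^ (96 * η) := by
          rw [← Real.rpow_add hZ0]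
          congr 1
          rw [hη]
          ring
        have hc0 : 0 ≤ 6000000 * 50 ^ 7 * D ^ 3 := by positivity
        have hz1 : 0 ≤ Z ^ η := by positivity
        have hz2 : 0 ≤ Z ^ (23 * η) := by positivity
        have hz3 : 0 ≤ Z ^ (-(4 * η)) := by positivity
        have k1 : 6000000 * 50 ^ 7 * D ^ 3 * (1 + 1 / θ) * (1 + Real.log (2 * D + 3))
            ≤ 6000000 * 50 ^ 7 * D ^ 3 * (2 * Z ^ η) * Z ^ η := by
          refine mul_le_mul (mul_le_mul_of_nonneg_left h3 hc0) h4 h4' ?_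
          positivity
        have k2 : 6000000 * 50 ^ 7 * D ^ 3 * (2 * Z ^ η) * Z ^ η * Z ^ (23 * η)
            = D ^ 3 / (80 * 128000) * (12000000 * 50 ^ 7 * 80 * 128000 * Z ^ (25 * η)) := by
          rw [← e1]
          ring
        have k3 : D ^ 3 / (80 * 128000) * Z ^ (96 * η)
            = 1 / 2 * (D ^ 3 * Z ^ ε / 5120000 * Z ^ (-(4 * η))) := by
          rw [← e2]
          ring
        have k4 := mul_le_mul_of_nonneg_right k1 hz2
        have k5 : D ^ 3 / (80 * 128000) * (12000000 * 50 ^ 7 * 80 * 128000 * Z ^ (25 * η))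
            ≤ D ^ 3 / (80 * 128000) * Z ^ (96 * η) :=
          mul_le_mul_of_nonneg_left hZm (by positivity)
        have k6 : D ^ 3 * Z ^ ε / 5120000 * Z ^ (-(4 * η)) ≤ N * Z ^ (-(4 * η)) :=
          mul_le_mul_of_nonneg_right h6 hz3
        rw [k2] at k4
        rw [k3] at k5
        linarith
      have h3 : N * (τ + 2 * Real.pi * θ * δ) ≤ N * (1 / 2 * Z ^ (-(4 * η))) :=
        mul_le_mul_of_nonneg_left h1 hN0.le
      linarith)
  obtain ⟨h1, h2⟩ := mem_product.1 hi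
  exact ⟨i.1, (hbX _ h1).1, i.2, (hbY _ h2).1, hdist _ h1 _ h2, hi2⟩

end Pool.Agent.W5h28.PD
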