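import Pool.Agent.H469R2.NK.KL

set_option autoImplicit false

/-! The first derivative test for oscillatory integrals, without monotonicity. -/

namespace Pool.Agent.W5h28.PD

open Set MeasureTheory intervalIntegral
open Pool.Agent.H469R2.NK (e norm_e e_add)

lemma e_hasDerivAt {φ : ℝ → ℝ} {φ' t : ℝ} (h : HasDerivAt φ φ' t) (θ : ℝ) :
    HasDerivAt (fun s => e (θ * φ s)) (((2 * Real.pi * θ * φ' : ℝ) : ℂ) * Complex.I
      * e (θ * φ t)) t := by
  unfold e
  have h1 : HasDerivAt (fun s => 2 * Real.pi * (θ * φ s)) (2 * Real.pi * (θ * φ')) t :=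
    (h.const_mul θ).const_mul _
  have h2 := (h1.ofReal_comp.mul_const Complex.I).cexp
  convert h2 using 1
  push_cast
  ring

lemma e_continuous : Continuous e := by
  unfold e
  fun_prop

/-- first derivative test, with a bound for the second derivative in place of monotonicity -/
theorem osc {a b θ lam Lam : ℝ} (hab : a ≤ b) (hθ : 0 < θ) (hlam : 0 < lam)
    {φ φ' φ'' : ℝ → ℝ} (h1 : ∀ t ∈ Icc a b, HasDerivAt φ (φ' t) t)
    (h2 : ∀ t ∈ Icc a b, HasDerivAt φ' (φ'' t) t) (hc : ContinuousOn φ'' (Icc a b))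
    (hl : ∀ t ∈ Icc a b, lam ≤ |φ' t|) (hL : ∀ t ∈ Icc a b, |φ'' t| ≤ Lam) :
    ‖∫ t in a..b, e (θ * φ t)‖ ≤ (2 / lam + (b - a) * Lam / lam ^ 2) / (2 * Real.pi * θ) := by
  have hpi := Real.pi_pos
  have hu : uIcc a b = Icc a b := uIcc_of_le hab
  have hne : ∀ t ∈ Icc a b, φ' t ≠ 0 := by
    intro t ht h
    have := hl t ht
    rw [h, abs_zero] at this
    linarith
  have hcφ : ContinuousOn φ (Icc a b) := fun t ht => (h1 t ht).continuousAt.continuousWithinAt
  have hcφ' : ContinuousOn φ' (Icc a b) := fun t ht => (h2 t ht).continuousAt.continuousWithinAt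
  set u : ℝ → ℂ := fun t => (((φ' t)⁻¹ : ℝ) : ℂ) with hudef
  set u' : ℝ → ℂ := fun t => ((-(φ'' t) / (φ' t) ^ 2 : ℝ) : ℂ) with hu'def
  set v : ℝ → ℂ := fun t => e (θ * φ t) with hvdef
  set v' : ℝ → ℂ := fun t => ((2 * Real.pi * θ * φ' t : ℝ) : ℂ) * Complex.I * e (θ * φ t) with hv'def
  have hud : ∀ t ∈ uIcc a b, HasDerivAt u (u' t) t := by
    intro t ht
    rw [hu] at ht
    have := ((h2 t ht).inv (hne t ht)).ofReal_comp
    exact this
  have hvd : ∀ t ∈ uIcc a b, HasDerivAt v (v' t) t := by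
    intro t ht
    rw [hu] at ht
    exact e_hasDerivAt (h1 t ht) θ
  have hvc : ContinuousOn v (Icc a b) :=
    e_continuous.comp_continuousOn (continuousOn_const.mul hcφ)
  have hu'c : ContinuousOn u' (Icc a b) := by
    apply Complex.continuous_ofReal.comp_continuousOn
    exact hc.neg.div (hcφ'.pow 2) fun t ht => pow_ne_zero _ (hne t ht)
  have hv'c : ContinuousOn v' (Icc a b) := by
    refine ContinuousOn.mul (ContinuousOn.mul ?_ continuousOn_const) hvc
    exact Complex.continuous_ofReal.comp_continuousOn (continuousOn_const.mul hcφ')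
  have hu'i : IntervalIntegrable u' volume a b := by
    apply ContinuousOn.intervalIntegrable
    rwa [hu]
  have hv'i : IntervalIntegrable v' volume a b := by
    apply ContinuousOn.intervalIntegrable
    rwa [hu]
  have hparts := integral_mul_deriv_eq_deriv_mul hud hvd hu'i hv'i
  have h3 : ∫ t in a..b, u t * v' t
      = ((2 * Real.pi * θ : ℝ) : ℂ) * Complex.I * ∫ t in a..b, v t := by
    rw [← intervalIntegral.integral_const_mul]
    refine intervalIntegral.integral_congr fun t ht => ?_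
    rw [hu] at ht
    have h4 := hne t ht
    simp only [hudef, hv'def, hvdef]
    have h5 : ((φ' t : ℝ) : ℂ) ≠ 0 := by exact_mod_cast h4
    push_cast
    field_simp
  have h4 : ‖∫ t in a..b, u t * v' t‖ = 2 * Real.pi * θ * ‖∫ t in a..b, v t‖ := by
    rw [h3, norm_mul, norm_mul, Complex.norm_I, mul_one, Complex.norm_real, Real.norm_eq_abs,
      abs_of_pos (by positivity)]
  have h5 : ‖∫ t in a..b, u t * v' t‖ ≤ 2 / lam + (b - a) * Lam / lam ^ 2 := by
    rw [hparts]
    have hun : ∀ t ∈ Icc a b, ‖u t‖ ≤ 1 / lam := by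
      intro t ht
      simp only [hudef]
      rw [Complex.norm_real, Real.norm_eq_abs, abs_inv, ← one_div]
      exact one_div_le_one_div_of_le hlam (hl t ht)
    have hvn : ∀ t, ‖v t‖ = 1 := fun t => norm_e _
    have h6 : ‖u b * v b‖ ≤ 1 / lam := by
      rw [norm_mul, hvn, mul_one]
      exact hun b ⟨hab, le_rfl⟩
    have h7 : ‖u a * v a‖ ≤ 1 / lam := by
      rw [norm_mul, hvn, mul_one]
      exact hun a ⟨le_rfl, hab⟩
    have h8 : ‖∫ t in a..b, u' t * v t‖ ≤ Lam / lam ^ 2 * |b - a| := by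
      apply intervalIntegral.norm_integral_le_of_norm_le_const
      intro t ht
      rw [uIoc_of_le hab] at ht
      have ht' : t ∈ Icc a b := ⟨ht.1.le, ht.2⟩
      rw [norm_mul, hvn, mul_one]
      simp only [hu'def]
      rw [Complex.norm_real, Real.norm_eq_abs, abs_div, abs_neg, abs_pow]
      have h9 := hl t ht'
      have h10 := hL t ht'
      have h11 : 0 ≤ |φ'' t| := abs_nonneg _
      exact div_le_div₀ (h11.trans h10) h10 (by positivity) (pow_le_pow_left₀ hlam.le h9 2)
    rw [abs_of_nonneg (by linarith : (0 : ℝ) ≤ b - a)] at h8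
    calc ‖u b * v b - u a * v a - ∫ t in a..b, u' t * v t‖
        ≤ ‖u b * v b‖ + ‖u a * v a‖ + ‖∫ t in a..b, u' t * v t‖ :=
          (norm_sub_le _ _).trans (by gcongr; exact norm_sub_le _ _)
      _ ≤ 1 / lam + 1 / lam + Lam / lam ^ 2 * (b - a) := by gcongr
      _ = 2 / lam + (b - a) * Lam / lam ^ 2 := by ring
  rw [h4] at h5
  rw [le_div_iff₀ (by positivity)]
  linarith

end Pool.Agent.W5h28.PD
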