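import Pool.Agent.W5h28.PD.Geo

set_option autoImplicit false

/-! The oscillatory integral of a pair of points over a square, and its sum over a strip. -/

namespace Pool.Agent.W5h28.PD

open Set MeasureTheory
open Pool.Agent.H469R2.NK (e norm_e e_add)

/-- the square of side `2 D` with lower left corner `(a, b)` -/
def Sq (a b D : ℝ) : Set (ℝ × ℝ) := Icc a (a + 2 * D) ×ˢ Icc b (b + 2 * D)

lemma Sq_meas (a b D : ℝ) : MeasurableSet (Sq a b D) := measurableSet_Icc.prod measurableSet_Icc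

lemma Sq_compact (a b D : ℝ) : IsCompact (Sq a b D) := isCompact_Icc.prod isCompact_Icc

/-- the pair integral -/
noncomputable def J (θ a b D : ℝ) (y y' : ℂ) : ℂ :=
  ∫ z in Sq a b D, e (θ * (Rd z.1 z.2 y.re y.im - Rd z.1 z.2 y'.re y'.im))

lemma Rd_cont2 (p q : ℝ) : Continuous fun z : ℝ × ℝ => Rd z.1 z.2 p q := by
  unfold Rd
  fun_prop

lemma J_fubini (θ a b D : ℝ) (y y' : ℂ) : J θ a b D y y' = ∫ s in Icc a (a + 2 * D),
    ∫ t in Icc b (b + 2 * D), e (θ * ph s y.re y.im y'.re y'.im t) := by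
  unfold J Sq
  rw [Measure.volume_eq_prod]
  rw [setIntegral_prod]
  · rfl
  · have hc : Continuous fun z : ℝ × ℝ =>
        e (θ * (Rd z.1 z.2 y.re y.im - Rd z.1 z.2 y'.re y'.im)) :=
      e_continuous.comp (continuous_const.mul ((Rd_cont2 _ _).sub (Rd_cont2 _ _)))
    exact hc.continuousOn.integrableOn_compact (isCompact_Icc.prod isCompact_Icc)

lemma vol_Icc {a D : ℝ} (hD : 0 ≤ D) : volume.real (Icc a (a + 2 * D)) = 2 * D := by
  rw [Measure.real, Real.volume_Icc, ENNReal.toReal_ofReal (by linarith)]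
  ring

lemma J_trivial {θ a b D : ℝ} (hD : 0 ≤ D) (y y' : ℂ) : ‖J θ a b D y y'‖ ≤ 4 * D ^ 2 := by
  rw [J_fubini]
  have h1 : ∀ s ∈ Icc a (a + 2 * D),
      ‖∫ t in Icc b (b + 2 * D), e (θ * ph s y.re y.im y'.re y'.im t)‖ ≤ 2 * D := by
    intro s _
    have := norm_setIntegral_le_of_norm_le_const (μ := volume) (s := Icc b (b + 2 * D))
      (f := fun t => e (θ * ph s y.re y.im y'.re y'.im t)) (C := 1)
      (by rw [Real.volume_Icc]; exact ENNReal.ofReal_lt_top) (fun t _ => (norm_e _).le)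
    rw [vol_Icc hD, one_mul] at this
    exact this
  have := norm_setIntegral_le_of_norm_le_const (μ := volume) (s := Icc a (a + 2 * D))
      (by rw [Real.volume_Icc]; exact ENNReal.ofReal_lt_top) h1
  rw [vol_Icc hD] at this
  linarith [this, (by ring : 2 * D * (2 * D) = 4 * D ^ 2)]

/-- `y` is below the square at distance comparable to `D` -/
structure Below (a b D K : ℝ) (y : ℂ) : Prop where
  h1 : ∀ s ∈ Icc a (a + 2 * D), D / 2 ≤ s - y.re ∧ s - y.re ≤ K * D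
  h2 : ∀ t ∈ Icc b (b + 2 * D), |t - y.im| ≤ K * D

lemma J_osc {θ a b D K : ℝ} (hD : 1 ≤ D) (hK : 1 ≤ K) (hθ : 0 < θ) {y y' : ℂ}
    (hy : Below a b D K y) (hy' : Below a b D K y') (hpp : |y.re - y'.re| ≤ 1 / 2)
    (hr : 24 * K ^ 3 ≤ |y.im - y'.im|) :
    ‖J θ a b D y y'‖ ≤ 480000 * K ^ 7 * D ^ 2 / (θ * |y.im - y'.im|) := by
  rw [J_fubini]
  have hD0 : 0 ≤ D := by linarith
  have h1 : ∀ s ∈ Icc a (a + 2 * D),
      ‖∫ t in Icc b (b + 2 * D), e (θ * ph s y.re y.im y'.re y'.im t)‖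
        ≤ 240000 * K ^ 7 * D / (θ * |y.im - y'.im|) := by
    intro s hs
    rw [integral_Icc_eq_integral_Ioc, ← intervalIntegral.integral_of_le (by linarith)]
    exact seg_bound hD hK hθ (hy.h1 s hs).1 (hy.h1 s hs).2 (hy'.h1 s hs).1 (hy'.h1 s hs).2
      hy.h2 hy'.h2 hpp hr
  have := norm_setIntegral_le_of_norm_le_const (μ := volume) (s := Icc a (a + 2 * D))
      (by rw [Real.volume_Icc]; exact ENNReal.ofReal_lt_top) h1
  rw [vol_Icc hD0] at this
  refine this.trans (le_of_eq ?_)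
  ring

/-- the bound in terms of the numbers of the cells of side `1/2` -/
lemma J_cell {θ a b D K : ℝ} (hD : 1 ≤ D) (hK : 1 ≤ K) (hθ : 0 < θ) {y y' : ℂ}
    (hy : Below a b D K y) (hy' : Below a b D K y') (hpp : |y.re - y'.re| ≤ 1 / 2) :
    ‖J θ a b D y y'‖ ≤ 3000000 * K ^ 7 * D ^ 2 * (1 + 1 / θ)
      * (1 / ((|⌊2 * y.im⌋ - ⌊2 * y'.im⌋| : ℤ) + 1)) := by
  have hD0 : 0 < D := by linarith
  have hK3 : 1 ≤ K ^ 3 := one_le_pow₀ hK
  have hK7 : K ^ 3 ≤ K ^ 7 := pow_le_pow_right₀ hK (by norm_num)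
  set m : ℝ := ((|⌊2 * y.im⌋ - ⌊2 * y'.im⌋| : ℤ) : ℝ) with hm
  have hm0 : 0 ≤ m := by
    rw [hm]
    exact_mod_cast abs_nonneg _
  have hθ' : 0 < 1 / θ := by positivity
  have hmr : m ≤ 2 * |y.im - y'.im| + 1 := by
    rw [hm]
    push_cast
    have h1 := Int.floor_le (2 * y.im)
    have h2 := Int.lt_floor_add_one (2 * y.im)
    have h3 := Int.floor_le (2 * y'.im)
    have h4 := Int.lt_floor_add_one (2 * y'.im)
    rcases abs_cases (y.im - y'.im) with ⟨h5, h6⟩ | ⟨h5, h6⟩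
    · rw [h5]
      rw [abs_le]
      constructor <;> linarith
    · rw [h5]
      rw [abs_le]
      constructor <;> linarith
  rcases lt_or_ge m (48 * K ^ 3 + 2) with h | h
  · refine (J_trivial hD0.le y y').trans ?_
    rw [mul_one_div, le_div_iff₀ (by positivity)]
    calc 4 * D ^ 2 * (m + 1) ≤ 4 * D ^ 2 * (48 * K ^ 3 + 2 + 1) := by gcongr
      _ ≤ 4 * D ^ 2 * (51 * K ^ 3) := by gcongr; linarith
      _ = 204 * K ^ 3 * D ^ 2 * 1 := by ring
      _ ≤ 3000000 * K ^ 7 * D ^ 2 * (1 + 1 / θ) := by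
          gcongr
          · norm_num
          · linarith
  · have hr : 24 * K ^ 3 ≤ |y.im - y'.im| := by linarith
    refine (J_osc hD hK hθ hy hy' hpp hr).trans ?_
    have hr0 : 0 < |y.im - y'.im| := by linarith
    have h5 : m + 1 ≤ 6 * |y.im - y'.im| := by linarith
    rw [mul_one_div, div_le_div_iff₀ (by positivity) (by positivity)]
    calc 480000 * K ^ 7 * D ^ 2 * (m + 1)
        ≤ 480000 * K ^ 7 * D ^ 2 * (6 * |y.im - y'.im|) := by gcongr
      _ = 2880000 * K ^ 7 * D ^ 2 * (1 / θ) * (θ * |y.im - y'.im|) := by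
          field_simp
          ring
      _ ≤ 3000000 * K ^ 7 * D ^ 2 * (1 + 1 / θ) * (θ * |y.im - y'.im|) := by
          gcongr
          · norm_num
          · linarith

/-- sum over distinct integers in a window -/
lemma sum_window (N : ℕ) (j : ℤ) (S : Finset ℤ) (hS : ∀ i ∈ S, |j - i| ≤ N) :
    ∑ i ∈ S, (1 : ℝ) / ((|j - i| : ℤ) + 1) ≤ 2 * (1 + Real.log (N + 1)) := by
  -- fibres of `i ↦ |j - i|` have at most two elements
  classical
  have h1 : ∑ i ∈ S, (1 : ℝ) / ((|j - i| : ℤ) + 1)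
      = ∑ m ∈ Finset.range (N + 1), ∑ i ∈ S with (j - i).natAbs = m,
        (1 : ℝ) / ((|j - i| : ℤ) + 1) := by
    rw [Finset.sum_fiberwise_of_maps_to]
    intro i hi
    rw [Finset.mem_range]
    have := hS i hi
    rw [Int.abs_eq_natAbs] at this
    omega
  rw [h1]
  have h2 : ∀ m ∈ Finset.range (N + 1), ∑ i ∈ S with (j - i).natAbs = m,
      (1 : ℝ) / ((|j - i| : ℤ) + 1) ≤ 2 * (1 / ((m : ℝ) + 1)) := by
    intro m _
    have h3 : ∀ i ∈ (S.filter fun i => (j - i).natAbs = m),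
        (1 : ℝ) / ((|j - i| : ℤ) + 1) = 1 / ((m : ℝ) + 1) := by
      intro i hi
      have h4 := (Finset.mem_filter.1 hi).2
      have h5 : |j - i| = (m : ℤ) := by rw [Int.abs_eq_natAbs]; omega
      rw [h5]
      simp
    rw [Finset.sum_congr rfl h3, Finset.sum_const, nsmul_eq_mul]
    have h4 : (S.filter fun i => (j - i).natAbs = m) ⊆ {j - m, j + m} := by
      intro i hi
      have h5 := (Finset.mem_filter.1 hi).2
      rw [Finset.mem_insert, Finset.mem_singleton]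
      omega
    have h5 := (Finset.card_le_card h4).trans Finset.card_le_two
    have h6 : (((S.filter fun i => (j - i).natAbs = m).card : ℕ) : ℝ) ≤ 2 := by exact_mod_cast h5
    gcongr
  refine (Finset.sum_le_sum h2).trans ?_
  rw [← Finset.mul_sum]
  have h3 : ∑ m ∈ Finset.range (N + 1), (1 : ℝ) / ((m : ℝ) + 1) = ((harmonic (N + 1) : ℚ) : ℝ) := by
    rw [harmonic]
    push_cast
    refine Finset.sum_congr rfl fun m _ => ?_
    rw [one_div]
  rw [h3]
  have h4 := harmonic_le_one_add_log (N + 1)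
  push_cast at h4
  linarith

/-- points of a strip of height `1/2` with mutual distances at least one are in different cells -/
lemma strip_inj {Y : Finset ℂ} (hsep : ∀ y ∈ Y, ∀ y' ∈ Y, y ≠ y' → 1 ≤ ‖y - y'‖) (k : ℤ)
    (hk : ∀ y ∈ Y, ⌊2 * y.re⌋ = k) : Set.InjOn (fun y : ℂ => ⌊2 * y.im⌋) (Y : Set ℂ) := by
  intro y hy y' hy' h
  by_contra hne
  have h1 := hsep y hy y' hy' hne
  have h2 := hk y hy
  have h3 := hk y' hy'
  simp only at h
  have h4 := Int.floor_le (2 * y.re)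
  have h5 := Int.lt_floor_add_one (2 * y.re)
  have h6 := Int.floor_le (2 * y'.re)
  have h7 := Int.lt_floor_add_one (2 * y'.re)
  have h8 := Int.floor_le (2 * y.im)
  have h9 := Int.lt_floor_add_one (2 * y.im)
  have h10 := Int.floor_le (2 * y'.im)
  have h11 := Int.lt_floor_add_one (2 * y'.im)
  rw [h2] at h4 h5
  rw [h3] at h6 h7
  rw [h] at h8 h9
  have h12 : |(y - y').re| < 1 / 2 := by
    rw [Complex.sub_re, abs_lt]
    constructor <;> linarith
  have h13 : |(y - y').im| < 1 / 2 := by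
    rw [Complex.sub_im, abs_lt]
    constructor <;> linarith
  have h14 := Complex.norm_le_abs_re_add_abs_im (y - y')
  linarith

/-- the sum of the pair integrals over a strip -/
theorem strip_sum {θ a b D K b' : ℝ} (hD : 1 ≤ D) (hK : 1 ≤ K) (hθ : 0 < θ) {Y : Finset ℂ}
    (hsep : ∀ y ∈ Y, ∀ y' ∈ Y, y ≠ y' → 1 ≤ ‖y - y'‖) (k : ℤ) (hk : ∀ y ∈ Y, ⌊2 * y.re⌋ = k)
    (hY : ∀ y ∈ Y, Below a b D K y) (hb : ∀ y ∈ Y, b' ≤ y.im ∧ y.im ≤ b' + D) :
    ∑ y ∈ Y, ∑ y' ∈ Y, ‖J θ a b D y y'‖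
      ≤ Y.card * (6000000 * K ^ 7 * D ^ 2 * (1 + 1 / θ) * (1 + Real.log (2 * D + 3))) := by
  have hD0 : 0 < D := by linarith
  have h0 : ∀ y ∈ Y, ∑ y' ∈ Y, ‖J θ a b D y y'‖
      ≤ 6000000 * K ^ 7 * D ^ 2 * (1 + 1 / θ) * (1 + Real.log (2 * D + 3)) := by
    intro y hy
    have hpp : ∀ y' ∈ Y, |y.re - y'.re| ≤ 1 / 2 := by
      intro y' hy'
      have h2 := hk y hy
      have h3 := hk y' hy'
      have h4 := Int.floor_le (2 * y.re)
      have h5 := Int.lt_floor_add_one (2 * y.re)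
      have h6 := Int.floor_le (2 * y'.re)
      have h7 := Int.lt_floor_add_one (2 * y'.re)
      rw [h2] at h4 h5
      rw [h3] at h6 h7
      rw [abs_le]
      constructor <;> linarith
    have h1 : ∑ y' ∈ Y, ‖J θ a b D y y'‖ ≤ ∑ y' ∈ Y, 3000000 * K ^ 7 * D ^ 2 * (1 + 1 / θ)
      * (1 / ((|⌊2 * y.im⌋ - ⌊2 * y'.im⌋| : ℤ) + 1)) :=
      Finset.sum_le_sum fun y' hy' => J_cell hD hK hθ (hY y hy) (hY y' hy') (hpp y' hy')
    refine h1.trans ?_
    rw [← Finset.mul_sum]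
    classical
    have h2 : ∑ y' ∈ Y, (1 : ℝ) / ((|⌊2 * y.im⌋ - ⌊2 * y'.im⌋| : ℤ) + 1)
        = ∑ i ∈ Y.image (fun y : ℂ => ⌊2 * y.im⌋), (1 : ℝ) / ((|⌊2 * y.im⌋ - i| : ℤ) + 1) := by
      rw [Finset.sum_image]
      intro u hu v hv h
      exact strip_inj hsep k hk hu hv h
    rw [h2]
    have h3 := sum_window (⌊2 * D⌋₊ + 1) ⌊2 * y.im⌋ (Y.image (fun y : ℂ => ⌊2 * y.im⌋)) (by
      intro i hi
      obtain ⟨y', hy', rfl⟩ := Finset.mem_image.1 hi
      have h4 := hb y hy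
      have h5 := hb y' hy'
      have h6 : (((|⌊2 * y.im⌋ - ⌊2 * y'.im⌋| : ℤ) : ℤ) : ℝ) ≤ 2 * D + 1 := by
        push_cast
        have h8 := Int.floor_le (2 * y.im)
        have h9 := Int.lt_floor_add_one (2 * y.im)
        have h10 := Int.floor_le (2 * y'.im)
        have h11 := Int.lt_floor_add_one (2 * y'.im)
        rw [abs_le]
        constructor <;> linarith
      have h7 : |⌊2 * y.im⌋ - ⌊2 * y'.im⌋| ≤ ⌊2 * D + 1⌋ := Int.le_floor.2 h6
      have h8 : ⌊2 * D + 1⌋ = ((⌊2 * D⌋₊ + 1 : ℕ) : ℤ) := by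
        rw [Int.floor_add_one]
        push_cast
        rw [Int.natCast_floor_eq_floor (by positivity)]
      rw [h8] at h7
      exact h7)
    have h4 : Real.log (((⌊2 * D⌋₊ + 1 : ℕ) : ℝ) + 1) ≤ Real.log (2 * D + 3) := by
      apply Real.log_le_log (by positivity)
      push_cast
      have := Nat.floor_le (by positivity : 0 ≤ 2 * D)
      linarith
    have h5 : 0 ≤ 3000000 * K ^ 7 * D ^ 2 * (1 + 1 / θ) := by positivity
    calc _ ≤ 3000000 * K ^ 7 * D ^ 2 * (1 + 1 / θ)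
          * (2 * (1 + Real.log (((⌊2 * D⌋₊ + 1 : ℕ) : ℝ) + 1))) := by gcongr
      _ ≤ 3000000 * K ^ 7 * D ^ 2 * (1 + 1 / θ) * (2 * (1 + Real.log (2 * D + 3))) := by gcongr
      _ = _ := by ring
  refine (Finset.sum_le_sum h0).trans ?_
  rw [Finset.sum_const, nsmul_eq_mul]

end Pool.Agent.W5h28.PD
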